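import Mathlib

set_option autoImplicit false

/-! Abel's theorem for sums with decreasing weights. -/

namespace Pool.Agent.T9h60.BH
open Finset Filter Topology

/-- Abel's inequality. -/
lemma abel_ineq (a w : ℕ → ℝ) (hw : Antitone w) (hw0 : ∀ n, 0 ≤ w n) (ε : ℝ) (M : ℕ)
    (h : ∀ n, |∑ k ∈ Ico M n, a k| ≤ ε) (N : ℕ) (hN : M ≤ N) : |∑ k ∈ Ico M N, a k * w k| ≤ ε * w M := by
  have key : ∀ N, M ≤ N → |∑ k ∈ Ico M N, a k * w k - (∑ k ∈ Ico M N, a k) * w N| ≤ ε * (w M - w N) := by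
    intro N hN
    induction N, hN using Nat.le_induction with
    | base => simp
    | succ N hN ih =>
      have e : ∑ k ∈ Ico M (N + 1), a k * w k - (∑ k ∈ Ico M (N + 1), a k) * w (N + 1) =
          (∑ k ∈ Ico M N, a k * w k - (∑ k ∈ Ico M N, a k) * w N) +
            (∑ k ∈ Ico M (N + 1), a k) * (w N - w (N + 1)) := by
        rw [Finset.sum_Ico_succ_top hN, Finset.sum_Ico_succ_top hN]
        ring
      rw [e]
      refine (abs_add_le _ _).trans ?_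
      have h1 : 0 ≤ w N - w (N + 1) := sub_nonneg.2 (hw (Nat.le_succ N))
      have h2 : |(∑ k ∈ Ico M (N + 1), a k) * (w N - w (N + 1))| ≤ ε * (w N - w (N + 1)) := by
        rw [abs_mul, abs_of_nonneg h1]
        exact mul_le_mul_of_nonneg_right (h _) h1
      linarith
  have h1 := key N hN
  have h2 : |(∑ k ∈ Ico M N, a k) * w N| ≤ ε * w N := by
    rw [abs_mul, abs_of_nonneg (hw0 N)]
    exact mul_le_mul_of_nonneg_right (h _) (hw0 N)
  have h3 : ∑ k ∈ Ico M N, a k * w k = (∑ k ∈ Ico M N, a k * w k - (∑ k ∈ Ico M N, a k) * w N) +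
      (∑ k ∈ Ico M N, a k) * w N := by ring
  rw [h3]
  refine (abs_add_le _ _).trans ?_
  linarith

/-- Abel's theorem. -/
theorem abel_lim (a : ℕ → ℝ) (A : ℝ) (h : Tendsto (fun N => ∑ k ∈ range N, a k) atTop (𝓝 A)) (w : ℝ → ℕ → ℝ)
    (hanti : ∀ δ : ℝ, 0 < δ → Antitone (w δ)) (h0 : ∀ δ : ℝ, 0 < δ → ∀ n, 0 ≤ w δ n ∧ w δ n ≤ 1)
    (hc : ∀ n, Tendsto (fun δ => w δ n) (𝓝[>] 0) (𝓝 1)) (F : ℝ → ℝ)
    (hF : ∀ δ : ℝ, 0 < δ → Tendsto (fun N => ∑ k ∈ range N, a k * w δ k) atTop (𝓝 (F δ))) :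
    Tendsto F (𝓝[>] 0) (𝓝 A) := by
  rw [Metric.tendsto_nhds]
  intro ε hε
  have hε8 : 0 < ε / 8 := by positivity
  obtain ⟨M, hM⟩ := Metric.tendsto_atTop.1 h (ε / 8) hε8
  have hM1 : |∑ k ∈ range M, a k - A| < ε / 8 := by
    have := hM M (le_refl _)
    rwa [Real.dist_eq] at this
  have hM2 : ∀ n, |∑ k ∈ Ico M n, a k| ≤ ε / 4 := by
    intro n
    by_cases hn : M ≤ n
    · rw [Finset.sum_Ico_eq_sub _ hn]
      have h1 := hM n hn
      rw [Real.dist_eq] at h1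
      have e : ∑ k ∈ range n, a k - ∑ k ∈ range M, a k = (∑ k ∈ range n, a k - A) - (∑ k ∈ range M, a k - A) := by ring
      rw [e]
      refine (abs_sub _ _).trans ?_
      linarith
    · rw [Ico_eq_empty (by omega), sum_empty, abs_zero]
      linarith
  have h2 : Tendsto (fun δ => ∑ k ∈ range M, a k * w δ k) (𝓝[>] 0) (𝓝 (∑ k ∈ range M, a k * 1)) :=
    tendsto_finsetSum _ fun k _ => (hc k).const_mul (a k)
  simp only [mul_one] at h2
  have h3 := (Metric.tendsto_nhds.1 h2) (ε / 8) hε8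
  filter_upwards [h3, self_mem_nhdsWithin] with δ h4 h5
  have h5' : 0 < δ := h5
  rw [Real.dist_eq] at h4 ⊢
  have h6 : |F δ - ∑ k ∈ range M, a k * w δ k| ≤ ε / 4 := by
    have h7 : Tendsto (fun N => |∑ k ∈ range N, a k * w δ k - ∑ k ∈ range M, a k * w δ k|) atTop
        (𝓝 |F δ - ∑ k ∈ range M, a k * w δ k|) := ((hF δ h5').sub_const _).abs
    apply le_of_tendsto h7
    filter_upwards [eventually_ge_atTop M] with N hN
    rw [← Finset.sum_Ico_eq_sub _ hN]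
    refine (abel_ineq a (w δ) (hanti δ h5') (fun n => (h0 δ h5' n).1) (ε / 4) M hM2 N hN).trans ?_
    have := (h0 δ h5' M).2
    nlinarith
  have e : F δ - A = (F δ - ∑ k ∈ range M, a k * w δ k) + (∑ k ∈ range M, a k * w δ k - ∑ k ∈ range M, a k) +
      (∑ k ∈ range M, a k - A) := by ring
  rw [e]
  have h8 := abs_add_le ((F δ - ∑ k ∈ range M, a k * w δ k) + (∑ k ∈ range M, a k * w δ k - ∑ k ∈ range M, a k))
    (∑ k ∈ range M, a k - A)
  have h9 := abs_add_le (F δ - ∑ k ∈ range M, a k * w δ k) (∑ k ∈ range M, a k * w δ k - ∑ k ∈ range M, a k)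
  linarith

end Pool.Agent.T9h60.BH
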