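import Mathlib
import Pool.Agent.W468.CFProd
import Pool.Agent.T9h60.BH.Abel

set_option autoImplicit false

/-! `∏_{p < N} (1 - χ(p)/p)⁻¹` converges to `∑ χ(n)/n` for the real character modulo 5. -/

namespace Pool.Agent.T9h60.BH
open Finset Filter Topology

/-- the quadratic character modulo 5 -/
noncomputable def ch (n : ℕ) : ℝ := (jacobiSym (n : ℤ) 5 : ℝ)

lemma ch_one : ch 1 = 1 := by
  unfold ch
  rw [Nat.cast_one, jacobiSym.one_left]
  norm_num

lemma ch_zero : ch 0 = 0 := by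
  unfold ch
  rw [Nat.cast_zero, jacobiSym.zero_left (by norm_num)]
  norm_num

lemma ch_mul (m n : ℕ) : ch (m * n) = ch m * ch n := by
  unfold ch
  rw [Nat.cast_mul, jacobiSym.mul_left]
  push_cast
  ring

lemma ch_abs (n : ℕ) : |ch n| ≤ 1 := by
  unfold ch
  rcases jacobiSym.trichotomy (n : ℤ) 5 with h | h | h <;> rw [h] <;> norm_num

lemma ch_mod (n : ℕ) : ch n = ch (n % 5) := by
  unfold ch
  rw [jacobiSym.mod_left]
  congr 1

lemma ch_two : ch 2 = -1 := by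
  unfold ch
  have : jacobiSym ((2 : ℕ) : ℤ) 5 = -1 := by norm_num
  rw [this]; norm_num

lemma ch_three : ch 3 = -1 := by
  unfold ch
  have : jacobiSym ((3 : ℕ) : ℤ) 5 = -1 := by norm_num
  rw [this]; norm_num

lemma ch_four : ch 4 = 1 := by
  unfold ch
  have : jacobiSym ((4 : ℕ) : ℤ) 5 = 1 := by norm_num
  rw [this]; norm_num

/-- the terms of the Dirichlet series at `1 + δ` -/
noncomputable def fh (δ : ℝ) (_hδ : 0 < δ) : ℕ →*₀ ℝ where
  toFun n := ch n * (n : ℝ) ^ (-(1 + δ))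
  map_zero' := by simp [ch_zero]
  map_one' := by simp [ch_one]
  map_mul' m n := by
    rw [ch_mul, Nat.cast_mul, Real.mul_rpow (Nat.cast_nonneg _) (Nat.cast_nonneg _)]
    ring

lemma fh_apply (δ : ℝ) (hδ : 0 < δ) (n : ℕ) : fh δ hδ n = ch n * (n : ℝ) ^ (-(1 + δ)) := rfl

lemma fh_le (δ : ℝ) (hδ : 0 < δ) (n : ℕ) : ‖fh δ hδ n‖ ≤ (n : ℝ) ^ (-(1 + δ)) := by
  rw [fh_apply, norm_mul, Real.norm_eq_abs, Real.norm_of_nonneg (Real.rpow_nonneg (Nat.cast_nonneg _) _)]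
  have h := ch_abs n
  have h1 : 0 ≤ (n : ℝ) ^ (-(1 + δ)) := Real.rpow_nonneg (Nat.cast_nonneg _) _
  nlinarith

lemma sum_rpow (δ : ℝ) (hδ : 0 < δ) : Summable (fun n : ℕ => (n : ℝ) ^ (-(1 + δ))) :=
  Real.summable_nat_rpow.2 (by linarith)

lemma fh_sum (δ : ℝ) (hδ : 0 < δ) : Summable (fun n => ‖fh δ hδ n‖) :=
  Summable.of_nonneg_of_le (fun _ => norm_nonneg _) (fh_le δ hδ) (sum_rpow δ hδ)

/-- the weights -/
noncomputable def wt (δ : ℝ) (n : ℕ) : ℝ := ((max n 1 : ℕ) : ℝ) ^ (-δ)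

lemma wt_anti (δ : ℝ) (hδ : 0 < δ) : Antitone (wt δ) := by
  intro m n h
  unfold wt
  apply Real.rpow_le_rpow_of_nonpos
  · have : 1 ≤ max m 1 := le_max_right _ _
    exact_mod_cast this
  · exact_mod_cast max_le_max h (le_refl 1)
  · linarith

lemma wt_bd (δ : ℝ) (hδ : 0 < δ) (n : ℕ) : 0 ≤ wt δ n ∧ wt δ n ≤ 1 := by
  unfold wt
  refine ⟨Real.rpow_nonneg (Nat.cast_nonneg _) _, ?_⟩
  apply Real.rpow_le_one_of_one_le_of_nonpos
  · have : 1 ≤ max n 1 := le_max_right _ _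
    exact_mod_cast this
  · linarith

lemma wt_lim (n : ℕ) : Tendsto (fun δ => wt δ n) (𝓝[>] 0) (𝓝 1) := by
  have h1 : ((max n 1 : ℕ) : ℝ) ≠ 0 := by
    have : 1 ≤ max n 1 := le_max_right _ _
    positivity
  have h2 : Continuous (fun δ : ℝ => ((max n 1 : ℕ) : ℝ) ^ (-δ)) :=
    (continuous_const.rpow continuous_neg (fun _ => Or.inl h1))
  have h3 := (h2.tendsto 0).mono_left (nhdsWithin_le_nhds (s := Set.Ioi (0 : ℝ)))
  simpa [wt] using h3

lemma split_rpow (δ : ℝ) (n : ℕ) (hn : 1 ≤ n) : (n : ℝ) ^ (-(1 + δ)) = 1 / (n : ℝ) * wt δ n := by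
  have hn0 : (0 : ℝ) < n := by exact_mod_cast hn
  unfold wt
  rw [max_eq_left hn, neg_add, Real.rpow_add hn0, Real.rpow_neg_one, one_div]

/-- the sum over all integers -/
theorem series_lim (ℓ : ℝ) (h : Tendsto (fun N => ∑ n ∈ range N, ch n / n) atTop (𝓝 ℓ)) (L : ℝ → ℝ)
    (hL : ∀ (δ : ℝ) (hδ : 0 < δ), Tendsto (fun N => ∑ n ∈ range N, fh δ hδ n) atTop (𝓝 (L δ))) :
    Tendsto L (𝓝[>] 0) (𝓝 ℓ) := by
  refine abel_lim (fun n => ch n / n) ℓ h wt wt_anti wt_bd wt_lim L (fun δ hδ => ?_)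
  refine (hL δ hδ).congr (fun N => sum_congr rfl fun n _ => ?_)
  rcases Nat.eq_zero_or_pos n with rfl | hn
  · simp [ch_zero]
  · rw [fh_apply, split_rpow δ n hn]
    ring

/-- reciprocity -/
lemma recip {p : ℕ} (hp : p.Prime) (hp2 : p ≠ 2) : (jacobiSym 5 p : ℝ) = ch p := by
  unfold ch
  have h := jacobiSym.quadratic_reciprocity_one_mod_four (a := 5) (b := p) (by norm_num) (hp.odd_of_ne_two hp2)
  have h' : jacobiSym 5 p = jacobiSym (p : ℤ) 5 := by exact_mod_cast h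
  rw [h']

/-- the primes below `N` -/
lemma SJ_five (N : ℕ) (hN : 2 ≤ N) : ∑ p ∈ (range (N + 1)).filter Nat.Prime, ch p / p =
    -1 / 2 + Pool.Agent.W468.ConjF.SJ 5 2 N := by
  unfold Pool.Agent.W468.ConjF.SJ
  have e : (range (N + 1)).filter Nat.Prime = insert 2 ((Ioc 2 N).filter Nat.Prime) := by
    ext p
    simp only [mem_filter, mem_range, mem_insert, mem_Ioc]
    constructor
    · rintro ⟨h1, h2⟩
      rcases h2.two_le.eq_or_lt with h3 | h3
      · exact Or.inl h3.symm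
      · exact Or.inr ⟨⟨h3, by omega⟩, h2⟩
    · rintro (rfl | ⟨⟨h1, h2⟩, h3⟩)
      · exact ⟨by omega, Nat.prime_two⟩
      · exact ⟨by omega, h3⟩
  rw [e, sum_insert (by simp), ch_two]
  congr 1
  apply sum_congr rfl
  intro p hp
  rw [mem_filter, mem_Ioc] at hp
  rw [recip hp.2 (by omega)]

lemma not_sq_five : ¬ IsSquare (5 : ℤ) := by
  rintro ⟨r, hr⟩
  have h1 : r.natAbs * r.natAbs = 5 := by
    have := congrArg Int.natAbs hr
    rw [Int.natAbs_mul] at this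
    exact this.symm
  have h2 : r.natAbs ≤ 2 := by nlinarith
  interval_cases r.natAbs <;> omega

/-- the prime sum converges -/
lemma psum_lim : ∃ A : ℝ, Tendsto (fun N => ∑ n ∈ range N, (if n.Prime then ch n / n else 0)) atTop (𝓝 A) := by
  obtain ⟨A, hA⟩ := Pool.Agent.W468.ConjF.SJ_cauchy 5 not_sq_five 2
  refine ⟨-1 / 2 + A, ?_⟩
  rw [← tendsto_add_atTop_iff_nat 1]
  refine (hA.const_add (-1 / 2)).congr' ?_
  filter_upwards [eventually_ge_atTop 2] with N hN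
  rw [← SJ_five N hN, sum_filter]

/-- the correction -/
noncomputable def ee (δ : ℝ) (n : ℕ) : ℝ :=
  if n.Prime then -Real.log (1 - ch n * (n : ℝ) ^ (-(1 + δ))) - ch n * (n : ℝ) ^ (-(1 + δ)) else 0

lemma x_bd (δ : ℝ) (hδ : 0 ≤ δ) (n : ℕ) (hn : 2 ≤ n) : |ch n * (n : ℝ) ^ (-(1 + δ))| ≤ 1 / n := by
  have hn1 : (1 : ℝ) ≤ n := by exact_mod_cast (by omega : 1 ≤ n)
  have hn0 : (0 : ℝ) < n := by linarith
  rw [abs_mul, abs_of_nonneg (Real.rpow_nonneg hn0.le _)]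
  have h1 : (n : ℝ) ^ (-(1 + δ)) ≤ (n : ℝ) ^ (-1 : ℝ) := Real.rpow_le_rpow_of_exponent_le hn1 (by linarith)
  rw [Real.rpow_neg_one] at h1
  have h2 := ch_abs n
  have h3 : 0 ≤ (n : ℝ) ^ (-(1 + δ)) := Real.rpow_nonneg hn0.le _
  rw [one_div]
  nlinarith

lemma ee_bd (δ : ℝ) (hδ : 0 ≤ δ) (n : ℕ) : ‖ee δ n‖ ≤ 2 / (n : ℝ) ^ 2 := by
  unfold ee
  split_ifs with hp
  · have hn2 := hp.two_le
    have hn2r : (2 : ℝ) ≤ n := by exact_mod_cast hn2
    have hn0 : (0 : ℝ) < n := by linarith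
    obtain ⟨x, hx⟩ : ∃ x, x = ch n * (n : ℝ) ^ (-(1 + δ)) := ⟨_, rfl⟩
    have hb := x_bd δ hδ n hn2
    rw [← hx] at hb ⊢
    have hb2 : |x| ≤ 1 / 2 := hb.trans (by
      rw [div_le_div_iff₀ hn0 (by norm_num)]
      linarith)
    have h3 := Real.abs_log_sub_add_sum_range_le (show |x| < 1 by linarith) 1
    simp only [range_one, sum_singleton, zero_add, pow_one, Nat.cast_zero, div_one] at h3
    rw [Real.norm_eq_abs, show -Real.log (1 - x) - x = -(x + Real.log (1 - x)) by ring, abs_neg]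
    refine h3.trans ?_
    rw [div_le_iff₀ (by linarith)]
    have h4 : |x| ^ (1 + 1) ≤ 1 / (n : ℝ) ^ 2 := by
      have : 1 / (n : ℝ) ^ 2 = (1 / (n : ℝ)) ^ 2 := by rw [one_div_pow]
      rw [this]
      exact pow_le_pow_left₀ (abs_nonneg _) hb 2
    have h5 : 2 / (n : ℝ) ^ 2 = 2 * (1 / (n : ℝ) ^ 2) := by ring
    have h6 : 0 ≤ 1 / (n : ℝ) ^ 2 := by positivity
    rw [h5]
    nlinarith
  · rw [norm_zero]
    positivity

lemma sum_two : Summable (fun n : ℕ => 2 / (n : ℝ) ^ 2) := by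
  have := (Real.summable_one_div_nat_pow (p := 2)).2 (by norm_num)
  simpa [div_eq_mul_inv] using this.mul_left 2

lemma ee_summable (δ : ℝ) (hδ : 0 ≤ δ) : Summable (ee δ) :=
  Summable.of_norm_bounded sum_two (ee_bd δ hδ)

lemma ee_lim : Tendsto (fun δ => ∑' n, ee δ n) (𝓝[>] 0) (𝓝 (∑' n, ee 0 n)) := by
  apply tendsto_tsum_of_dominated_convergence (bound := fun n : ℕ => 2 / (n : ℝ) ^ 2) sum_two
  · intro n
    by_cases hp : n.Prime
    · have hn0 : (n : ℝ) ≠ 0 := by exact_mod_cast hp.ne_zero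
      have h1 : Continuous (fun δ : ℝ => ch n * (n : ℝ) ^ (-(1 + δ))) :=
        continuous_const.mul ((continuous_const).rpow (continuous_const.add continuous_id).neg (fun _ => Or.inl hn0))
      have h2 : ContinuousAt (fun δ : ℝ => -Real.log (1 - ch n * (n : ℝ) ^ (-(1 + δ))) - ch n * (n : ℝ) ^ (-(1 + δ))) 0 := by
        have hb := x_bd 0 (le_refl _) n hp.two_le
        have hn2r : (2 : ℝ) ≤ n := by exact_mod_cast hp.two_le
        have hb2 : |ch n * (n : ℝ) ^ (-(1 + (0 : ℝ)))| ≤ 1 / 2 := hb.trans (by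
          rw [div_le_div_iff₀ (by linarith) (by norm_num)]
          linarith)
        have hne : 1 - ch n * (n : ℝ) ^ (-(1 + (0 : ℝ))) ≠ 0 := by
          generalize ch n * (n : ℝ) ^ (-(1 + (0 : ℝ))) = x at hb2
          have := (abs_le.1 hb2).2
          intro h
          linarith
        exact (((continuous_const.sub h1).continuousAt.log hne).neg).sub h1.continuousAt
      have h3 := h2.tendsto.mono_left (nhdsWithin_le_nhds (s := Set.Ioi (0 : ℝ)))
      simpa only [ee, if_pos hp] using h3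
    · simp only [ee, if_neg hp]
      exact tendsto_const_nhds
  · filter_upwards [self_mem_nhdsWithin] with δ hδ n
    exact ee_bd δ (le_of_lt hδ) n

/-- `∏_{p < N} (1 - χ(p)/p)⁻¹` -/
noncomputable def PP (δ : ℝ) (N : ℕ) : ℝ := ∏ p ∈ N.primesBelow, (1 - ch p * (p : ℝ) ^ (-(1 + δ)))⁻¹

lemma PP_exp (δ : ℝ) (hδ : 0 ≤ δ) (N : ℕ) : PP δ N = Real.exp (∑ n ∈ range N,
    (if n.Prime then ch n * (n : ℝ) ^ (-(1 + δ)) else 0) + ∑ n ∈ range N, ee δ n) := by
  have e1 : N.primesBelow = (range N).filter Nat.Prime := rfl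
  unfold PP
  rw [e1, ← sum_add_distrib, Real.exp_sum, prod_filter]
  apply prod_congr rfl
  intro n _
  by_cases hp : n.Prime
  · have hb := x_bd δ hδ n hp.two_le
    have hn2r : (2 : ℝ) ≤ n := by exact_mod_cast hp.two_le
    have hb2 : |ch n * (n : ℝ) ^ (-(1 + δ))| ≤ 1 / 2 := hb.trans (by
      rw [div_le_div_iff₀ (by linarith) (by norm_num)]
      linarith)
    have hpos : 0 < 1 - ch n * (n : ℝ) ^ (-(1 + δ)) := by
      have := (abs_le.1 hb2).2
      linarith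
    simp only [ee, if_pos hp]
    rw [show ch n * (n : ℝ) ^ (-(1 + δ)) + (-Real.log (1 - ch n * (n : ℝ) ^ (-(1 + δ))) - ch n * (n : ℝ) ^ (-(1 + δ))) =
      -Real.log (1 - ch n * (n : ℝ) ^ (-(1 + δ))) by ring, Real.exp_neg, Real.exp_log hpos]
  · simp only [ee, if_neg hp, add_zero, Real.exp_zero]

/-- **the value of the product** -/
theorem mertens_five (ℓ : ℝ) (h : Tendsto (fun N => ∑ n ∈ range N, ch n / n) atTop (𝓝 ℓ)) :
    0 < ℓ ∧ Tendsto (fun N : ℕ => ∏ p ∈ N.primesBelow, (1 - ch p / p)) atTop (𝓝 ℓ⁻¹) := by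
  obtain ⟨A, hA⟩ := psum_lim
  -- the prime sum at `1 + δ`
  have hs : ∀ δ : ℝ, 0 < δ → Summable (fun n : ℕ => (if n.Prime then ch n * (n : ℝ) ^ (-(1 + δ)) else 0)) := by
    intro δ hδ
    apply Summable.of_norm_bounded (sum_rpow δ hδ)
    intro n
    split_ifs
    · exact fh_le δ hδ n
    · rw [norm_zero]
      exact Real.rpow_nonneg (Nat.cast_nonneg _) _
  have hF1 : Tendsto (fun δ : ℝ => ∑' n : ℕ, (if n.Prime then ch n * (n : ℝ) ^ (-(1 + δ)) else 0)) (𝓝[>] 0) (𝓝 A) := by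
    refine abel_lim _ A hA wt wt_anti wt_bd wt_lim _ (fun δ hδ => ?_)
    refine ((hs δ hδ).hasSum.tendsto_sum_nat).congr (fun N => sum_congr rfl fun n _ => ?_)
    split_ifs with hp
    · rw [split_rpow δ n hp.one_le]
      ring
    · ring
  -- the series at `1 + δ`
  have hLs : ∀ (δ : ℝ) (hδ : 0 < δ), ∑' n, fh δ hδ n =
      Real.exp (∑' n : ℕ, (if n.Prime then ch n * (n : ℝ) ^ (-(1 + δ)) else 0) + ∑' n, ee δ n) := by
    intro δ hδ
    have h1 := EulerProduct.eulerProduct_completely_multiplicative (f := fh δ hδ) (fh_sum δ hδ)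
    have h2 : Tendsto (fun N => PP δ N) atTop (𝓝 (Real.exp
        (∑' n : ℕ, (if n.Prime then ch n * (n : ℝ) ^ (-(1 + δ)) else 0) + ∑' n, ee δ n))) := by
      simp only [PP_exp δ hδ.le]
      exact (Real.continuous_exp.tendsto _).comp
        (((hs δ hδ).hasSum.tendsto_sum_nat).add ((ee_summable δ hδ.le).hasSum.tendsto_sum_nat))
    exact tendsto_nhds_unique h1 h2
  obtain ⟨L, hLd⟩ : ∃ L : ℝ → ℝ, L = fun δ => if hδ : 0 < δ then ∑' n, fh δ hδ n else 0 := ⟨_, rfl⟩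
  have hL : Tendsto L (𝓝[>] 0) (𝓝 ℓ) := by
    apply series_lim ℓ h L
    intro δ hδ
    rw [hLd]
    simp only [dif_pos hδ]
    exact ((fh_sum δ hδ).of_norm).hasSum.tendsto_sum_nat
  have hL2 : Tendsto L (𝓝[>] 0) (𝓝 (Real.exp (A + ∑' n, ee 0 n))) := by
    have h3 := (Real.continuous_exp.tendsto _).comp (hF1.add ee_lim)
    refine h3.congr' ?_
    filter_upwards [self_mem_nhdsWithin] with δ hδ
    have hδ' : 0 < δ := hδ
    rw [hLd]
    simp only [dif_pos hδ']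
    rw [hLs δ hδ']
    rfl
  have hℓ : ℓ = Real.exp (A + ∑' n, ee 0 n) := tendsto_nhds_unique hL hL2
  refine ⟨by rw [hℓ]; exact Real.exp_pos _, ?_⟩
  have h4 : Tendsto (fun N => PP 0 N) atTop (𝓝 ℓ) := by
    simp only [PP_exp 0 (le_refl _)]
    rw [hℓ]
    refine (Real.continuous_exp.tendsto _).comp (Tendsto.add ?_ ((ee_summable 0 (le_refl _)).hasSum.tendsto_sum_nat))
    refine hA.congr (fun N => sum_congr rfl fun n _ => ?_)
    split_ifs with hp
    · rw [add_zero, Real.rpow_neg_one]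
      rfl
    · rfl
  have h5 := h4.inv₀ (by rw [hℓ]; exact (Real.exp_pos _).ne')
  refine h5.congr (fun N => ?_)
  unfold PP
  rw [← prod_inv_distrib]
  apply prod_congr rfl
  intro p _
  rw [inv_inv, add_zero, Real.rpow_neg_one]
  rfl

end Pool.Agent.T9h60.BH
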