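import Mathlib
import Pool.Agent.T9h60.BH.LOne

set_option autoImplicit false

/-! The constant `∏_p (1 - χ(p)/(p-1))` for the real character modulo 5. -/

namespace Pool.Agent.T9h60.BH
open Finset Filter Topology

lemma ch_mod0 (k : ℕ) : ch (5 * k) = 0 := by rw [ch_mod]; simp [ch_zero]
lemma ch_mod1 (k : ℕ) : ch (5 * k + 1) = 1 := by rw [ch_mod, show (5 * k + 1) % 5 = 1 by omega, ch_one]
lemma ch_mod2 (k : ℕ) : ch (5 * k + 2) = -1 := by rw [ch_mod, show (5 * k + 2) % 5 = 2 by omega, ch_two]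
lemma ch_mod3 (k : ℕ) : ch (5 * k + 3) = -1 := by rw [ch_mod, show (5 * k + 3) % 5 = 3 by omega, ch_three]
lemma ch_mod4 (k : ℕ) : ch (5 * k + 4) = 1 := by rw [ch_mod, show (5 * k + 4) % 5 = 4 by omega, ch_four]

lemma csum (K : ℕ) : ∑ n ∈ range (5 * K), ch n = 0 := by
  induction K with
  | zero => simp
  | succ K ih =>
    rw [show 5 * (K + 1) = 5 * K + 1 + 1 + 1 + 1 + 1 by ring, sum_range_succ, sum_range_succ, sum_range_succ,
      sum_range_succ, sum_range_succ, ih, ch_mod0, ch_mod1, show 5 * K + 1 + 1 = 5 * K + 2 by ring, ch_mod2,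
      show 5 * K + 2 + 1 = 5 * K + 3 by ring, ch_mod3, show 5 * K + 3 + 1 = 5 * K + 4 by ring, ch_mod4]
    norm_num

lemma csum_bd (N : ℕ) : ‖∑ n ∈ range N, ch n‖ ≤ 1 := by
  have hN : N = 5 * (N / 5) + N % 5 := (Nat.div_add_mod N 5).symm
  have hr : N % 5 < 5 := Nat.mod_lt _ (by norm_num)
  generalize N / 5 = K at hN
  generalize N % 5 = r at hN hr
  subst hN
  interval_cases r
  · rw [add_zero, csum]; norm_num
  · rw [sum_range_succ, csum, ch_mod0]; norm_num
  · rw [show 5 * K + 2 = 5 * K + 1 + 1 by ring, sum_range_succ, sum_range_succ, csum, ch_mod0, ch_mod1]; norm_num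
  · rw [show 5 * K + 3 = 5 * K + 1 + 1 + 1 by ring, sum_range_succ, sum_range_succ, sum_range_succ, csum, ch_mod0, ch_mod1,
      show 5 * K + 1 + 1 = 5 * K + 2 by ring, ch_mod2]; norm_num
  · rw [show 5 * K + 4 = 5 * K + 1 + 1 + 1 + 1 by ring, sum_range_succ, sum_range_succ, sum_range_succ, sum_range_succ,
      csum, ch_mod0, ch_mod1, show 5 * K + 1 + 1 = 5 * K + 2 by ring, ch_mod2,
      show 5 * K + 2 + 1 = 5 * K + 3 by ring, ch_mod3]; norm_num

/-- the series converges -/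
lemma series_conv : ∃ ℓ : ℝ, Tendsto (fun N => ∑ n ∈ range N, ch n / n) atTop (𝓝 ℓ) := by
  have hanti : Antitone (fun n : ℕ => 1 / ((max n 1 : ℕ) : ℝ)) := by
    intro m n h
    simp only
    have h1 : 1 ≤ max m 1 := le_max_right _ _
    have h2 : (0 : ℝ) < ((max m 1 : ℕ) : ℝ) := by exact_mod_cast h1
    exact one_div_le_one_div_of_le h2 (by exact_mod_cast max_le_max h (le_refl 1))
  have hlim : Tendsto (fun n : ℕ => 1 / ((max n 1 : ℕ) : ℝ)) atTop (𝓝 0) := by
    refine (tendsto_one_div_atTop_nhds_zero_nat (𝕜 := ℝ)).congr' ?_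
    filter_upwards [eventually_ge_atTop 1] with n hn
    rw [max_eq_left hn]
  have h := hanti.cauchySeq_series_mul_of_tendsto_zero_of_bounded hlim csum_bd
  obtain ⟨ℓ, hℓ⟩ := cauchySeq_tendsto_of_complete h
  refine ⟨ℓ, hℓ.congr (fun N => sum_congr rfl fun n _ => ?_)⟩
  rcases Nat.eq_zero_or_pos n with rfl | hn
  · simp [ch_zero]
  · rw [max_eq_left hn, smul_eq_mul]
    ring

/-- the blocks -/
noncomputable def bl (K : ℕ) : ℝ := 1 / (5 * K + 1) - 1 / (5 * K + 2) - 1 / (5 * K + 3) + 1 / (5 * K + 4)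

lemma T_succ (K : ℕ) : ∑ n ∈ range (5 * (K + 1)), ch n / n = ∑ n ∈ range (5 * K), ch n / n + bl K := by
  rw [show 5 * (K + 1) = 5 * K + 1 + 1 + 1 + 1 + 1 by ring, sum_range_succ, sum_range_succ, sum_range_succ,
    sum_range_succ, sum_range_succ, ch_mod0, ch_mod1, show 5 * K + 1 + 1 = 5 * K + 2 by ring, ch_mod2,
    show 5 * K + 2 + 1 = 5 * K + 3 by ring, ch_mod3, show 5 * K + 3 + 1 = 5 * K + 4 by ring, ch_mod4]
  unfold bl
  push_cast
  ring

lemma bl_nonneg (K : ℕ) : 0 ≤ bl K := by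
  unfold bl
  have hK : (0 : ℝ) ≤ K := Nat.cast_nonneg K
  have e : 1 / (5 * (K : ℝ) + 1) - 1 / (5 * K + 2) - 1 / (5 * K + 3) + 1 / (5 * K + 4) =
      10 * (2 * K + 1) / ((5 * K + 1) * (5 * K + 2) * (5 * K + 3) * (5 * K + 4)) := by
    field_simp
    ring
  rw [e]
  positivity

lemma bl_le (K : ℕ) (hK : 1 ≤ K) : bl K ≤ 2 / (125 * (K : ℝ) ^ 2) - 2 / (125 * ((K + 1 : ℕ) : ℝ) ^ 2) := by
  unfold bl
  have hK1 : (1 : ℝ) ≤ K := by exact_mod_cast hK
  have hK0 : (0 : ℝ) < K := by linarith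
  have e : 1 / (5 * (K : ℝ) + 1) - 1 / (5 * K + 2) - 1 / (5 * K + 3) + 1 / (5 * K + 4) =
      10 * (2 * K + 1) / ((5 * K + 1) * (5 * K + 2) * (5 * K + 3) * (5 * K + 4)) := by
    field_simp
    ring
  have e2 : 2 / (125 * (K : ℝ) ^ 2) - 2 / (125 * ((K + 1 : ℕ) : ℝ) ^ 2) =
      10 * (2 * K + 1) / (625 * K ^ 2 * (K + 1) ^ 2) := by
    push_cast
    field_simp
    ring
  rw [e, e2]
  apply div_le_div_of_nonneg_left (by positivity) (by positivity)
  have h1 : 0 < (K : ℝ) ^ 2 := by positivity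
  have h2 : 0 < (K : ℝ) ^ 3 := by positivity
  nlinarith

lemma T_bds (K : ℕ) (hK : 10 ≤ K) : ∑ n ∈ range 50, ch n / n ≤ ∑ n ∈ range (5 * K), ch n / n ∧
    ∑ n ∈ range (5 * K), ch n / n ≤ ∑ n ∈ range 50, ch n / n + 2 / 12500 - 2 / (125 * (K : ℝ) ^ 2) := by
  induction K, hK using Nat.le_induction with
  | base =>
    refine ⟨le_refl _, ?_⟩
    norm_num
  | succ K hK ih =>
    rw [T_succ]
    have h1 := bl_nonneg K
    have h2 := bl_le K (by omega)
    constructor
    · linarith [ih.1]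
    · linarith [ih.2]

lemma T_ten : (0.43024 : ℝ) ≤ ∑ n ∈ range 50, ch n / n ∧ ∑ n ∈ range 50, ch n / n ≤ 0.43025 := by
  have e : ∑ n ∈ range 50, ch n / n = ∑ K ∈ range 10, bl K := by
    have : ∀ K, ∑ n ∈ range (5 * K), ch n / n = ∑ k ∈ range K, bl k := by
      intro K
      induction K with
      | zero => simp
      | succ K ih => rw [T_succ, ih, sum_range_succ]
    exact this 10
  rw [e]
  unfold bl
  constructor <;> norm_num [sum_range_succ]

lemma l_bds (ℓ : ℝ) (h : Tendsto (fun N => ∑ n ∈ range N, ch n / n) atTop (𝓝 ℓ)) : (0.43024 : ℝ) ≤ ℓ ∧ ℓ ≤ 0.43041 := by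
  have h1 : Tendsto (fun K : ℕ => ∑ n ∈ range (5 * K), ch n / n) atTop (𝓝 ℓ) := by
    apply h.comp
    exact tendsto_id.const_mul_atTop' (by norm_num)
  obtain ⟨t1, t2⟩ := T_ten
  constructor
  · apply ge_of_tendsto h1
    filter_upwards [eventually_ge_atTop 10] with K hK
    exact t1.trans (T_bds K hK).1
  · apply le_of_tendsto h1
    filter_upwards [eventually_ge_atTop 10] with K hK
    have h2 := (T_bds K hK).2
    have h3 : 0 ≤ 2 / (125 * (K : ℝ) ^ 2) := by positivity
    linarith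

/-- the ratio of the factors -/
noncomputable def rr (n : ℕ) : ℝ := (1 - ch n / (n - 1)) / (1 - ch n / n)

lemma ch_cases (n : ℕ) : ch n = 1 ∨ ch n = -1 ∨ ch n = 0 := by
  unfold ch
  rcases jacobiSym.trichotomy (n : ℤ) 5 with h | h | h <;> rw [h] <;> norm_num

lemma rr_bds (n : ℕ) (hn : 3 ≤ n) : 1 - 1 / ((n : ℝ) - 1) ^ 2 ≤ rr n ∧ rr n ≤ 1 + 1 / ((n : ℝ) ^ 2 - 1) := by
  have h3 : (3 : ℝ) ≤ n := by exact_mod_cast hn
  have e1 : (0 : ℝ) < (n : ℝ) - 1 := by linarith
  have e2 : (0 : ℝ) < (n : ℝ) ^ 2 - 1 := by nlinarith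
  have e3 : (0 : ℝ) < n := by linarith
  have hpos1 : 0 ≤ 1 / ((n : ℝ) - 1) ^ 2 := by positivity
  have hpos2 : 0 ≤ 1 / ((n : ℝ) ^ 2 - 1) := by positivity
  unfold rr
  rcases ch_cases n with h | h | h
  · rw [h]
    have e : (1 - 1 / ((n : ℝ) - 1)) / (1 - 1 / n) = 1 - 1 / ((n : ℝ) - 1) ^ 2 := by
      have : (n : ℝ) - 1 ≠ 0 := e1.ne'
      have h4 : (1 : ℝ) - 1 / n ≠ 0 := by
        rw [one_sub_div e3.ne']
        exact div_ne_zero this e3.ne'
      rw [div_eq_iff h4]
      field_simp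
      ring
    rw [e]
    exact ⟨le_refl _, by linarith⟩
  · rw [h]
    have e : (1 - (-1) / ((n : ℝ) - 1)) / (1 - (-1) / n) = 1 + 1 / ((n : ℝ) ^ 2 - 1) := by
      have h5 : (n : ℝ) - 1 ≠ 0 := e1.ne'
      have h6 : (n : ℝ) ^ 2 - 1 ≠ 0 := e2.ne'
      have h4 : (1 : ℝ) - (-1) / n ≠ 0 := by
        have : 0 < (1 : ℝ) - (-1) / n := by
          rw [neg_div, sub_neg_eq_add]
          positivity
        exact this.ne'
      rw [div_eq_iff h4]
      field_simp
      ring
    rw [e]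
    exact ⟨by linarith, le_refl _⟩
  · rw [h]
    simp only [zero_div, sub_zero, div_one]
    exact ⟨by linarith, by linarith⟩

/-- the product of the ratios -/
noncomputable def RR (N : ℕ) : ℝ := ∏ n ∈ range N, (if n.Prime then rr n else 1)

lemma RR_succ (N : ℕ) : RR (N + 1) = RR N * (if N.Prime then rr N else 1) := prod_range_succ _ _

lemma RR_nonneg (N : ℕ) : 0 ≤ RR N := by
  unfold RR
  apply prod_nonneg
  intro n _
  split_ifs with hp
  · rcases hp.two_le.eq_or_lt with h2 | h2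
    · rw [← h2]
      unfold rr
      rw [ch_two]
      norm_num
    · refine le_trans ?_ (rr_bds n h2).1
      have h3 : (3 : ℝ) ≤ n := by exact_mod_cast h2
      have h4 : 1 / ((n : ℝ) - 1) ^ 2 ≤ 1 := by
        rw [div_le_one (by apply pow_pos; linarith)]
        nlinarith
      linarith
  · norm_num

lemma RR_bds (z : ℕ) (hz : 3 ≤ z) (N : ℕ) (hN : z ≤ N) :
    RR z * (((z : ℝ) - 2) / (z - 1)) * (((N : ℝ) - 1) / (N - 2)) ≤ RR N ∧
      RR N ≤ RR z * ((z : ℝ) / (z - 1)) * (((N : ℝ) - 1) / N) := by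
  have hz3 : (3 : ℝ) ≤ z := by exact_mod_cast hz
  have hR := RR_nonneg z
  induction N, hN using Nat.le_induction with
  | base =>
    have h1 : (z : ℝ) - 1 ≠ 0 := by linarith
    have h2 : (z : ℝ) - 2 ≠ 0 := by linarith
    have h3 : (z : ℝ) ≠ 0 := by linarith
    constructor
    · apply le_of_eq
      field_simp
    · apply le_of_eq
      field_simp
  | succ N hN ih =>
    have hN3 : (3 : ℝ) ≤ N := by exact_mod_cast hz.trans hN
    rw [RR_succ]
    have h1 : (N : ℝ) - 1 ≠ 0 := by linarith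
    have h2 : (N : ℝ) - 2 ≠ 0 := by linarith
    have h3 : (N : ℝ) ≠ 0 := by linarith
    have h4 : (N : ℝ) + 1 ≠ 0 := by linarith
    have h5 : (N : ℝ) ^ 2 - 1 ≠ 0 := by
      have : (0 : ℝ) < (N : ℝ) ^ 2 - 1 := by nlinarith
      exact this.ne'
    have hpos1 : 0 ≤ 1 / ((N : ℝ) - 1) ^ 2 := by positivity
    have hpos2 : 0 ≤ 1 / ((N : ℝ) ^ 2 - 1) := by
      apply div_nonneg zero_le_one
      nlinarith
    have hr : 1 - 1 / ((N : ℝ) - 1) ^ 2 ≤ (if N.Prime then rr N else 1) ∧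
        (if N.Prime then rr N else 1) ≤ 1 + 1 / ((N : ℝ) ^ 2 - 1) := by
      split_ifs
      · exact rr_bds N (hz.trans hN)
      · constructor <;> linarith
    have hlo : 0 ≤ 1 - 1 / ((N : ℝ) - 1) ^ 2 := by
      have h6 : 1 / ((N : ℝ) - 1) ^ 2 ≤ 1 := by
        rw [div_le_one (by apply pow_pos; linarith)]
        nlinarith
      linarith
    generalize (if N.Prime then rr N else 1) = t at hr
    have ht0 : 0 ≤ t := hlo.trans hr.1
    constructor
    · have e : RR z * (((z : ℝ) - 2) / (z - 1)) * ((((N + 1 : ℕ) : ℝ) - 1) / (((N + 1 : ℕ) : ℝ) - 2)) =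
          RR z * (((z : ℝ) - 2) / (z - 1)) * (((N : ℝ) - 1) / (N - 2)) * (1 - 1 / ((N : ℝ) - 1) ^ 2) := by
        push_cast
        rw [show (N : ℝ) + 1 - 1 = N by ring, show (N : ℝ) + 1 - 2 = N - 1 by ring, mul_assoc (RR z * _)]
        congr 1
        field_simp
        ring
      rw [e]
      refine mul_le_mul ih.1 hr.1 hlo (RR_nonneg N)
    · have e : RR z * ((z : ℝ) / (z - 1)) * ((((N + 1 : ℕ) : ℝ) - 1) / ((N + 1 : ℕ) : ℝ)) =
          RR z * ((z : ℝ) / (z - 1)) * (((N : ℝ) - 1) / N) * (1 + 1 / ((N : ℝ) ^ 2 - 1)) := by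
        push_cast
        rw [show (N : ℝ) + 1 - 1 = N by ring, mul_assoc (RR z * _)]
        congr 1
        have h7 : (N : ℝ) ^ 2 - 1 = (N - 1) * (N + 1) := by ring
        rw [h7]
        field_simp
        ring
      rw [e]
      refine mul_le_mul ih.2 hr.2 ht0 ?_
      apply mul_nonneg (mul_nonneg hR (div_nonneg (by linarith) (by linarith)))
      exact div_nonneg (by linarith) (by linarith)

/-! ### The first primes -/

/-- primality below 841 -/
def isP (n : ℕ) : Bool := decide (2 ≤ n) && [2, 3, 5, 7, 11, 13, 17, 19, 23].all (fun d => n % d != 0 || n == d)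

lemma isP_iff (n : ℕ) (hn : n < 841) : isP n = true ↔ n.Prime := by
  unfold isP
  simp only [Bool.and_eq_true, decide_eq_true_eq, List.all_cons, List.all_nil, Bool.or_eq_true, bne_iff_ne,
    beq_iff_eq, and_true, ne_eq]
  constructor
  · rintro ⟨h2, h⟩
    by_contra hnp
    have h1 : n.minFac ^ 2 ≤ n := Nat.minFac_sq_le_self (by omega) hnp
    have h3 : n.minFac < 29 := by nlinarith
    have h4 : n.minFac.Prime := Nat.minFac_prime (by omega)
    have h5 : n % n.minFac = 0 := Nat.mod_eq_zero_of_dvd (Nat.minFac_dvd n)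
    have h6 : n ≠ n.minFac := by
      intro h7
      rw [← h7] at h4
      exact hnp h4
    generalize n.minFac = m at h3 h4 h5 h6
    have h8 := h4.two_le
    interval_cases m <;> first
      | (exfalso; revert h4; norm_num; done)
      | omega
  · intro hp
    refine ⟨hp.two_le, ?_⟩
    have key : ∀ d, d ≠ 1 → (¬ n % d = 0 ∨ n = d) := by
      intro d hd
      by_cases h : n % d = 0
      · right
        have h1 := (Nat.dvd_prime hp).1 (Nat.dvd_of_mod_eq_zero h)
        omega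
      · exact Or.inl h
    refine ⟨key 2 (by norm_num), key 3 (by norm_num), key 5 (by norm_num), key 7 (by norm_num), key 11 (by norm_num),
      key 13 (by norm_num), key 17 (by norm_num), key 19 (by norm_num), key 23 (by norm_num)⟩

/-- numerators -/
def aa (n : ℕ) : ℕ := if isP n then
  (if n % 5 = 1 ∨ n % 5 = 4 then (n - 2) * n else if n % 5 = 2 ∨ n % 5 = 3 then n * n else 1) else 1

/-- denominators -/
def bb (n : ℕ) : ℕ := if isP n then
  (if n % 5 = 1 ∨ n % 5 = 4 then (n - 1) * (n - 1) else if n % 5 = 2 ∨ n % 5 = 3 then (n - 1) * (n + 1) else 1) else 1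

def na : ℕ → ℕ
  | 0 => 1
  | n + 1 => na n * aa n

def nb : ℕ → ℕ
  | 0 => 1
  | n + 1 => nb n * bb n

lemma aa_bb (n : ℕ) (hn : n < 841) : (if n.Prime then rr n else 1) = (aa n : ℝ) / bb n := by
  unfold aa bb
  by_cases hp : n.Prime
  · have h1 := (isP_iff n hn).2 hp
    rw [if_pos hp, if_pos h1, if_pos h1]
    have h2 := hp.two_le
    have h2r : (2 : ℝ) ≤ n := by exact_mod_cast h2
    have e1 : (n : ℝ) - 1 ≠ 0 := by linarith
    have e2 : (n : ℝ) ≠ 0 := by linarith
    have e3 : (n : ℝ) + 1 ≠ 0 := by linarith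
    have c1 : ((n - 1 : ℕ) : ℝ) = n - 1 := by push_cast [Nat.cast_sub (show 1 ≤ n by omega)]; ring
    have c2 : ((n - 2 : ℕ) : ℝ) = n - 2 := by push_cast [Nat.cast_sub (show 2 ≤ n by omega)]; ring
    unfold rr
    rw [ch_mod]
    have h5 : n % 5 < 5 := Nat.mod_lt _ (by norm_num)
    generalize n % 5 = r at h5
    interval_cases r
    · rw [ch_zero]; norm_num
    · rw [ch_one]
      norm_num
      rw [c1, c2]
      have h4 : (1 : ℝ) - (n : ℝ)⁻¹ ≠ 0 := by
        rw [← one_div, one_sub_div e2]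
        exact div_ne_zero e1 e2
      rw [div_eq_div_iff h4 (mul_ne_zero e1 e1)]
      field_simp
      ring
    · rw [ch_two]
      norm_num
      rw [c1]
      have h4 : (1 : ℝ) - (-1) / n ≠ 0 := by
        have : 0 < (1 : ℝ) - (-1) / n := by
          rw [neg_div, sub_neg_eq_add]
          positivity
        exact this.ne'
      rw [div_eq_div_iff h4 (mul_ne_zero e1 e3)]
      field_simp
      ring
    · rw [ch_three]
      norm_num
      rw [c1]
      have h4 : (1 : ℝ) - (-1) / n ≠ 0 := by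
        have : 0 < (1 : ℝ) - (-1) / n := by
          rw [neg_div, sub_neg_eq_add]
          positivity
        exact this.ne'
      rw [div_eq_div_iff h4 (mul_ne_zero e1 e3)]
      field_simp
      ring
    · rw [ch_four]
      norm_num
      rw [c1, c2]
      have h4 : (1 : ℝ) - (n : ℝ)⁻¹ ≠ 0 := by
        rw [← one_div, one_sub_div e2]
        exact div_ne_zero e1 e2
      rw [div_eq_div_iff h4 (mul_ne_zero e1 e1)]
      field_simp
      ring
  · have h1 : ¬ isP n = true := fun h => hp ((isP_iff n hn).1 h)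
    rw [if_neg hp, if_neg h1, if_neg h1]
    norm_num

lemma RR_nat (N : ℕ) (hN : N ≤ 841) : RR N = (na N : ℝ) / nb N := by
  induction N with
  | zero => simp [RR, na, nb]
  | succ N ih =>
    rw [RR_succ, ih (by omega), aa_bb N (by omega)]
    rw [show na (N + 1) = na N * aa N from rfl, show nb (N + 1) = nb N * bb N from rfl]
    push_cast
    rw [div_mul_div_comm]

lemma nat_bds : 0 < nb 600 ∧ 15264 * nb 600 ≤ 10000 * na 600 ∧ 10000 * na 600 ≤ 15265 * nb 600 := by
  decide +kernel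

lemma RR_600 : (1.5264 : ℝ) ≤ RR 600 ∧ RR 600 ≤ 1.5265 := by
  rw [RR_nat 600 (by norm_num)]
  obtain ⟨h0, h1, h2⟩ := nat_bds
  have h0' : (0 : ℝ) < nb 600 := by exact_mod_cast h0
  have h1' : (15264 : ℝ) * nb 600 ≤ 10000 * na 600 := by exact_mod_cast h1
  have h2' : (10000 : ℝ) * na 600 ≤ 15265 * nb 600 := by exact_mod_cast h2
  constructor
  · rw [le_div_iff₀ h0']
    linarith
  · rw [div_le_iff₀ h0']
    linarith

/-- the products `∏_{p < N} (1 - χ(p)/(p-1))` -/
noncomputable def CC (N : ℕ) : ℝ := ∏ p ∈ N.primesBelow, (1 - ch p / ((p : ℝ) - 1))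

lemma CC_eq (N : ℕ) : CC N = RR N * ∏ p ∈ N.primesBelow, (1 - ch p / p) := by
  have e1 : N.primesBelow = (range N).filter Nat.Prime := rfl
  unfold CC RR
  rw [e1, prod_filter, prod_filter, ← prod_mul_distrib]
  apply prod_congr rfl
  intro p _
  by_cases hp : p.Prime
  · simp only [if_pos hp]
    unfold rr
    have h2r : (2 : ℝ) ≤ p := by exact_mod_cast hp.two_le
    have h4 : (1 : ℝ) - ch p / p ≠ 0 := by
      have h5 : ch p / p ≤ 1 / 2 := by
        rw [div_le_div_iff₀ (by linarith) (by norm_num)]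
        have := (abs_le.1 (ch_abs p)).2
        linarith
      intro h
      linarith
    rw [div_mul_cancel₀ _ h4]
  · simp only [if_neg hp, mul_one]

/-- **The constant** -/
theorem const_bds (C : ℝ) (hC : Tendsto CC atTop (𝓝 C)) : 3.54 < C ∧ C < 3.56 := by
  obtain ⟨ℓ, hℓ⟩ := series_conv
  obtain ⟨hℓ0, hP⟩ := mertens_five ℓ hℓ
  obtain ⟨l1, l2⟩ := l_bds ℓ hℓ
  obtain ⟨r1, r2⟩ := RR_600
  -- the limit of `RR`
  have hR : Tendsto RR atTop (𝓝 (C * ℓ)) := by
    have h1 := hC.div hP (inv_ne_zero hℓ0.ne')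
    rw [div_inv_eq_mul] at h1
    refine h1.congr' ?_
    have h2 := hP.eventually_ne (inv_ne_zero hℓ0.ne')
    filter_upwards [h2] with N hN
    simp only [Pi.div_apply]
    rw [CC_eq, mul_div_assoc, div_self hN, mul_one]
  have hlo : (1.5238 : ℝ) ≤ C * ℓ := by
    apply ge_of_tendsto hR
    filter_upwards [eventually_ge_atTop 600] with N hN
    refine le_trans ?_ (RR_bds 600 (by norm_num) N hN).1
    have hN6 : (600 : ℝ) ≤ N := by exact_mod_cast hN
    have h1 : (1 : ℝ) ≤ ((N : ℝ) - 1) / (N - 2) := by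
      rw [le_div_iff₀ (by linarith)]
      linarith
    have h2 : (1.5238 : ℝ) ≤ RR 600 * ((((600 : ℕ) : ℝ) - 2) / (((600 : ℕ) : ℝ) - 1)) := by
      push_cast
      norm_num
      norm_num at r1
      linarith
    nlinarith
  have hup : C * ℓ ≤ 1.5291 := by
    apply le_of_tendsto hR
    filter_upwards [eventually_ge_atTop 600] with N hN
    refine (RR_bds 600 (by norm_num) N hN).2.trans ?_
    have hN6 : (600 : ℝ) ≤ N := by exact_mod_cast hN
    have h1 : ((N : ℝ) - 1) / N ≤ 1 := by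
      rw [div_le_one (by linarith)]
      linarith
    have h2 : RR 600 * (((600 : ℕ) : ℝ) / (((600 : ℕ) : ℝ) - 1)) ≤ (1.5291 : ℝ) := by
      push_cast
      norm_num
      norm_num at r2
      linarith
    have h3 : 0 ≤ RR 600 * (((600 : ℕ) : ℝ) / (((600 : ℕ) : ℝ) - 1)) := by
      push_cast
      apply mul_nonneg (RR_nonneg 600)
      norm_num
    nlinarith
  constructor
  · by_contra hcon
    rw [not_lt] at hcon
    nlinarith
  · by_contra hcon
    rw [not_lt] at hcon
    nlinarith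

/-- existence of the limit -/
theorem const_exists : ∃ C : ℝ, Tendsto CC atTop (𝓝 C) := by
  obtain ⟨L, -, hL⟩ := Pool.Agent.W468.ConjF.PJ_tendsto 5 not_sq_five 2 (le_refl _)
  refine ⟨2 * L, ?_⟩
  rw [← tendsto_add_atTop_iff_nat 1]
  refine (hL.const_mul 2).congr' ?_
  filter_upwards [eventually_ge_atTop 2] with N hN
  have e1 : (N + 1).primesBelow = (range (N + 1)).filter Nat.Prime := rfl
  have e : (range (N + 1)).filter Nat.Prime = insert 2 ((Ioc 2 N).filter Nat.Prime) := by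
    ext p
    simp only [mem_filter, mem_range, mem_insert, mem_Ioc]
    constructor
    · rintro ⟨h1, h2⟩
      rcases h2.two_le.eq_or_lt with h3 | h3
      · exact Or.inl h3.symm
      · exact Or.inr ⟨⟨h3, by omega⟩, h2⟩
    · rintro (rfl | ⟨⟨h1, h2⟩, h3⟩)
      · exact ⟨by omega, Nat.prime_two⟩
      · exact ⟨by omega, h3⟩
  unfold CC Pool.Agent.W468.ConjF.PJ
  rw [e1, e, prod_insert (by simp), ch_two]
  congr 1
  · norm_num
  · apply prod_congr rfl
    intro p hp
    rw [mem_filter, mem_Ioc] at hp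
    rw [recip hp.2 (by omega)]

end Pool.Agent.T9h60.BH
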