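import Mathlib
import Pool.Agent.R460.SC.Fa
import Pool.Agent.R460.SC.Cl
import Pool.Agent.Y868.TB.T5
import Pool.Agent.T9h60.BH.Num

set_option autoImplicit false

/-! For almost all constant terms near 1 the constant is near the constant of `k² + 3 k + 1`. -/

namespace Pool.Agent.T9h60.BH
open Finset Filter Topology
open Pool.Agent.W468.ConjF (SJ PJ PJ_tendsto)
open Pool.Agent.R460.SC (tail_class PJ_lim Sz_split)
open Pool.Agent.R460.SB (Sz Sz_prod QS nu_leg)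
open Pool.Agent.H373R2.T7 (pz nuB mem_pz)
open Pool.Agent.Y614.GJ.Core (ev_log)

/-- the class `c₀` modulo `q` is close to `1` -/
def Near (z q : ℕ) (c₀ : ℤ) : Prop :=
  (∀ p : ℕ, p.Prime → p ≤ z → p ∣ q ∧ (p : ℤ) ∣ c₀ - 1) ∧
    ∑ p ∈ q.primeFactors.filter (fun p => z < p), 1 / (p : ℝ) ≤ 1 / z

lemma Sz_congr {c : ℤ} {z : ℕ} (h : ∀ p : ℕ, p.Prime → p ≤ z → (p : ℤ) ∣ c - 1) :
    Sz (-1) (-3) c z = Sz (-1) (-3) 1 z := by
  rw [Sz_prod, Sz_prod]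
  apply prod_congr rfl
  intro p hp
  rw [mem_pz] at hp
  have h1 := h p hp.2 hp.1
  have h2 : nuB (QS (-1) (-3) c) p = nuB (QS (-1) (-3) 1) p := by
    unfold nuB QS
    congr 1
    ext m
    simp only [mem_filter]
    apply and_congr_right
    intro _
    apply Int.dvd_iff_dvd_of_dvd_sub
    have e : c - (-1 * (m : ℤ) ^ 2 + -3 * (m : ℤ)) - (1 - (-1 * (m : ℤ) ^ 2 + -3 * (m : ℤ))) = c - 1 := by ring
    rw [e]
    exact h1
  rw [h2]

lemma nu_two : nuB (QS (-1) (-3) 1) 2 = 0 := by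
  unfold nuB QS
  rw [card_eq_zero, eq_empty_iff_forall_notMem]
  intro m hm
  simp only [mem_filter, mem_range] at hm
  obtain ⟨h1, h2⟩ := hm
  interval_cases m <;> norm_num at h2

lemma Sz_one (N : ℕ) : Sz (-1) (-3) 1 N = CC (N + 1) := by
  rw [Sz_prod]
  unfold CC
  have e1 : (N + 1).primesBelow = pz N := by
    ext p
    rw [mem_pz, Nat.mem_primesBelow]
    constructor
    · rintro ⟨h1, h2⟩
      exact ⟨by omega, h2⟩
    · rintro ⟨h1, h2⟩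
      exact ⟨by omega, h2⟩
  rw [e1]
  apply prod_congr rfl
  intro p hp
  rw [mem_pz] at hp
  have h2r : (2 : ℝ) ≤ p := by exact_mod_cast hp.2.two_le
  have hν : (nuB (QS (-1) (-3) 1) p : ℝ) = 1 + ch p := by
    by_cases h2 : p = 2
    · rw [h2, nu_two, ch_two]
      norm_num
    · have h1 := nu_leg (-1) (-3) 1 hp.2 h2 (by
        intro h
        rw [dvd_neg] at h
        have := Int.le_of_dvd one_pos h
        have := hp.2.two_le
        omega)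
      have e5 : (4 * (-1) * 1 + (-3) ^ 2 : ℤ) = 5 := by norm_num
      rw [e5] at h1
      rw [← recip hp.2 h2]
      exact_mod_cast h1
  rw [hν]
  have h3 : (p : ℝ) - 1 ≠ 0 := by
    have : (0 : ℝ) < (p : ℝ) - 1 := by linarith
    exact this.ne'
  have h4 : (p : ℝ) ≠ 0 := by
    have : (0 : ℝ) < (p : ℝ) := by linarith
    exact this.ne'
  have h5 : (1 : ℝ) - 1 / p ≠ 0 := by
    rw [one_sub_div h4]
    exact div_ne_zero h3 h4
  rw [div_eq_iff h5]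
  field_simp
  ring

lemma Sz_one_lim {C : ℝ} (hC : Tendsto CC atTop (𝓝 C)) : Tendsto (fun N : ℕ => Sz (-1) (-3) 1 N) atTop (𝓝 C) := by
  simp only [Sz_one]
  exact hC.comp (tendsto_add_atTop_nat 1)

/-- splitting the sum -/
lemma SJ_bd {D : ℤ} {z₀ z q : ℕ} (_hz0 : 1 ≤ z₀) (hz : z₀ ≤ z) (hq : 1 ≤ q)
    (hs : ∑ p ∈ q.primeFactors.filter (fun p => z₀ < p), 1 / (p : ℝ) ≤ 1 / z₀) {τ ε : ℝ}
    (h1 : |∑ p ∈ (Ioc z₀ z).filter (fun p => p.Prime ∧ ¬ p ∣ q), (jacobiSym D p : ℝ) / p| ≤ τ)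
    {N : ℕ} (hN : z ≤ N) (h2 : |SJ D z N| ≤ ε) : |SJ D z₀ N| ≤ τ + 1 / z₀ + ε := by
  have e1 : SJ D z₀ N = SJ D z₀ z + SJ D z N := by
    unfold SJ
    rw [sum_filter, sum_filter, sum_filter, sum_Ioc_consecutive _ hz hN]
  have e2 : SJ D z₀ z = ∑ p ∈ (Ioc z₀ z).filter (fun p => p.Prime ∧ ¬ p ∣ q), (jacobiSym D p : ℝ) / p +
      ∑ p ∈ (Ioc z₀ z).filter (fun p => p.Prime ∧ p ∣ q), (jacobiSym D p : ℝ) / p := by
    unfold SJ
    rw [← sum_filter_add_sum_filter_not ((Ioc z₀ z).filter Nat.Prime) (fun p => ¬ p ∣ q), filter_filter, filter_filter]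
    simp only [not_not]
  have h3 : |∑ p ∈ (Ioc z₀ z).filter (fun p => p.Prime ∧ p ∣ q), (jacobiSym D p : ℝ) / p| ≤ 1 / z₀ := by
    refine (abs_sum_le_sum_abs _ _).trans (le_trans ?_ hs)
    calc ∑ p ∈ (Ioc z₀ z).filter (fun p => p.Prime ∧ p ∣ q), |(jacobiSym D p : ℝ) / p|
        ≤ ∑ p ∈ (Ioc z₀ z).filter (fun p => p.Prime ∧ p ∣ q), 1 / (p : ℝ) := by
          apply sum_le_sum
          intro p _
          rw [abs_div, Nat.abs_cast]
          apply div_le_div_of_nonneg_right _ (Nat.cast_nonneg _)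
          rcases jacobiSym.trichotomy D p with h | h | h <;> rw [h] <;> norm_num
      _ ≤ ∑ p ∈ q.primeFactors.filter (fun p => z₀ < p), 1 / (p : ℝ) := by
          apply sum_le_sum_of_subset_of_nonneg
          · intro p hp
            rw [mem_filter, mem_Ioc] at hp
            rw [mem_filter, Nat.mem_primeFactors]
            exact ⟨⟨hp.2.1, hp.2.2, by omega⟩, hp.1.1⟩
          · intro p _ _
            positivity
  rw [e1, e2]
  refine (abs_add_le _ _).trans ?_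
  have h4 := abs_add_le (∑ p ∈ (Ioc z₀ z).filter (fun p => p.Prime ∧ ¬ p ∣ q), (jacobiSym D p : ℝ) / p)
    (∑ p ∈ (Ioc z₀ z).filter (fun p => p.Prime ∧ p ∣ q), (jacobiSym D p : ℝ) / p)
  linarith

/-- **the constants near the constant of `k² + 3 k + 1`** -/
theorem tail_near (ρ : ℝ) (hρ : 0 < ρ) (C : ℝ) (hC : Tendsto CC atTop (𝓝 C)) (δ η : ℝ) (hδ : 0 < δ) (hη : 0 < η) :
    ∃ z₁ : ℕ, 2 ≤ z₁ ∧ ∃ X₀ : ℕ, ∀ X : ℕ, X₀ ≤ X → ∀ z₀ : ℕ, z₁ ≤ z₀ → (z₀ : ℝ) ≤ Real.log X →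
      ∀ q : ℕ, 1 ≤ q → (q : ℝ) ≤ (X : ℝ) ^ (1 / 2 - ρ) → ∀ c₀ : ℤ, Near z₀ q c₀ →
        ∃ Ex : Finset ℤ, (#Ex : ℝ) ≤ η * (X / q) ∧ ∀ c : ℤ, 1 ≤ c → c ≤ X → c ≡ c₀ [ZMOD q] → c ∉ Ex →
          ∀ S : ℝ, Tendsto (fun z : ℕ => Sz (-1) (-3) c z) atTop (𝓝 S) → |S - C| ≤ δ := by
  classical
  obtain ⟨hC1, hC2⟩ := const_bds C hC
  obtain ⟨θ, hθ⟩ : ∃ θ : ℝ, θ = min 1 (δ / 6) := ⟨_, rfl⟩
  have hθ0 : 0 < θ := by rw [hθ]; exact lt_min one_pos (by positivity)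
  have hθ1 : θ ≤ 1 := by rw [hθ]; exact min_le_left _ _
  have hθδ : 6 * θ ≤ δ := by
    have : θ ≤ δ / 6 := by rw [hθ]; exact min_le_right _ _
    linarith
  obtain ⟨τ, hτ⟩ : ∃ τ : ℝ, τ = θ / 8 := ⟨_, rfl⟩
  have hτ0 : 0 < τ := by rw [hτ]; positivity
  obtain ⟨z₂, hz₂⟩ := Metric.tendsto_atTop.1 (Sz_one_lim hC) θ hθ0
  obtain ⟨z₃, hz₃⟩ : ∃ z₃ : ℕ, z₃ = ⌈48 / θ⌉₊ + ⌈16 / (η * τ ^ 2)⌉₊ := ⟨_, rfl⟩
  have hz₃a : 48 / θ ≤ z₃ := by
    rw [hz₃]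
    push_cast
    have := Nat.le_ceil (48 / θ)
    have h2 : (0 : ℝ) ≤ ⌈16 / (η * τ ^ 2)⌉₊ := Nat.cast_nonneg _
    linarith
  have hz₃b : 16 / (η * τ ^ 2) ≤ z₃ := by
    rw [hz₃]
    push_cast
    have := Nat.le_ceil (16 / (η * τ ^ 2))
    have h2 : (0 : ℝ) ≤ ⌈48 / θ⌉₊ := Nat.cast_nonneg _
    linarith
  obtain ⟨X₁, h1⟩ := tail_class 1 one_pos 3 ρ hρ 1 11
  obtain ⟨X₂, h2⟩ := Filter.eventually_atTop.1 (ev_log 23 (s := 1 / 2) (by norm_num)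
    (2 + 8 / θ + 4 / η + 4 / (η * τ ^ 2)))
  refine ⟨z₂ + z₃ + 2, by omega, X₁ + X₂ + 3, fun X hX z₀ hz₀ hz₀X q hq1 hqX c₀ hnear => ?_⟩
  obtain ⟨hLb, hLp⟩ := h2 X (by omega)
  obtain ⟨L, hL⟩ : ∃ L, L = Real.log (X : ℝ) := ⟨_, rfl⟩
  have hX1 : 1 ≤ X := by omega
  have hX0 : (0 : ℝ) < X := by exact_mod_cast hX1
  have hX1r : (1 : ℝ) ≤ X := by exact_mod_cast hX1
  have hq0 : (0 : ℝ) < q := by exact_mod_cast hq1
  have p1 : 0 < 8 / θ := by positivity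
  have p2 : 0 < 4 / η := by positivity
  have p3 : 0 < 4 / (η * τ ^ 2) := by positivity
  rw [← hL] at hLb hLp hz₀X
  have hL2 : 2 ≤ L := by linarith
  have hL0 : 0 < L := by linarith
  have hL1 : 1 ≤ L := by linarith
  -- the point `z`
  obtain ⟨z, hz⟩ : ∃ z : ℕ, z = ⌈L ^ 10⌉₊ := ⟨_, rfl⟩
  have hL10 : 1 ≤ L ^ 10 := one_le_pow₀ hL1
  have hzlo : L ^ 10 ≤ z := by rw [hz]; exact Nat.le_ceil _
  have hzhi : (z : ℝ) ≤ L ^ 11 := by
    rw [hz]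
    have h3 := Nat.ceil_lt_add_one (show 0 ≤ L ^ 10 by positivity)
    have h4 : L ^ 11 = L ^ 10 * L := pow_succ L 10
    nlinarith
  have hz₀z : z₀ ≤ z := by
    have h3 : (z₀ : ℝ) ≤ z := by
      refine hz₀X.trans (le_trans ?_ hzlo)
      exact le_self_pow₀ hL1 (by norm_num)
    exact_mod_cast h3
  obtain ⟨Ex1, hE1, hE2⟩ := h1 X (by omega) z (by rw [← hL]; norm_num; exact hzlo) (by rw [← hL]; exact hzhi) q hq1 hqX c₀
  rw [← hL, pow_one] at hE1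
  -- the members of the class
  obtain ⟨c₁, hc₁⟩ : ∃ c₁, c₁ = c₀ % (q : ℤ) := ⟨_, rfl⟩
  have hqz : (0 : ℤ) < q := by exact_mod_cast hq1
  obtain ⟨H, hH⟩ : ∃ H, H = X / q + 1 := ⟨_, rfl⟩
  have hqh : (q : ℝ) ≤ (X : ℝ) ^ (1 / 2 : ℝ) := hqX.trans
    (Real.rpow_le_rpow_of_exponent_le hX1r (by linarith))
  have hhX0 : 0 < (X : ℝ) ^ (1 / 2 : ℝ) := Real.rpow_pos_of_pos hX0 _
  have hsq : (X : ℝ) ^ (1 / 2 : ℝ) * (X : ℝ) ^ (1 / 2 : ℝ) = X := by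
    rw [← Real.rpow_add hX0]
    norm_num
  have hXq : (X : ℝ) ^ (1 / 2 : ℝ) ≤ X / q := by
    rw [le_div_iff₀ hq0]
    calc (X : ℝ) ^ (1 / 2 : ℝ) * q ≤ (X : ℝ) ^ (1 / 2 : ℝ) * (X : ℝ) ^ (1 / 2 : ℝ) := by gcongr
      _ = X := hsq
  have hXq1 : 1 ≤ (X : ℝ) / q := (Real.one_le_rpow hX1r (by norm_num)).trans hXq
  have hHhi : (H : ℝ) ≤ 2 * (X / q) := by
    rw [hH]
    push_cast
    have h5 : ((X / q : ℕ) : ℝ) ≤ X / q := Nat.cast_div_le
    linarith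
  obtain ⟨P, hP⟩ : ∃ P, P = (Ioc z₀ z).filter (fun p => p.Prime ∧ ¬ p ∣ q) := ⟨_, rfl⟩
  have hPp : ∀ p ∈ P, p.Prime ∧ p ≠ 2 ∧ z₀ < p ∧ p ≤ z ∧ ¬ (p : ℤ) ∣ -(4 * (q : ℤ)) := by
    intro p hp
    rw [hP, mem_filter, mem_Ioc] at hp
    obtain ⟨⟨h3, h4⟩, h5, h6⟩ := hp
    refine ⟨h5, by omega, h3, h4, ?_⟩
    intro h7
    rw [dvd_neg] at h7
    have h8 : (p : ℤ) ∣ ((4 * q : ℕ) : ℤ) := by push_cast; exact h7
    rw [Int.natCast_dvd_natCast] at h8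
    rcases (Nat.Prime.dvd_mul h5).1 h8 with h9 | h9
    · have h10 : p ∣ 2 ^ 2 := by norm_num; exact h9
      have h11 := (Nat.prime_dvd_prime_iff_eq h5 Nat.prime_two).1 (h5.dvd_of_dvd_pow h10)
      omega
    · exact h6 h9
  have hlow := Pool.Agent.Y868.TB.low_count_lin (9 - 4 * c₁) (-(4 * (q : ℤ))) P z₀ z H (by omega) hPp τ hτ0
  obtain ⟨B, hB⟩ : ∃ B, B = (range H).filter (fun c : ℕ => τ < |∑ p ∈ P, (jacobiSym (9 - 4 * c₁ + -(4 * (q : ℤ)) * (c : ℤ)) p : ℝ) / p|) :=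
    ⟨_, rfl⟩
  rw [← hB] at hlow
  refine ⟨Ex1 ∪ B.image (fun m : ℕ => c₁ + q * (m : ℤ)), ?_, ?_⟩
  · -- the count
    have h3 : (#(Ex1 ∪ B.image (fun m : ℕ => c₁ + q * (m : ℤ))) : ℝ) ≤ #Ex1 + #B := by
      have h4 : #(Ex1 ∪ B.image (fun m : ℕ => c₁ + q * (m : ℤ))) ≤ #Ex1 + #B :=
        (card_union_le _ _).trans (Nat.add_le_add_left card_image_le _)
      exact_mod_cast h4
    have hz₀r : ((z₃ : ℕ) : ℝ) ≤ z₀ := by exact_mod_cast (by omega : z₃ ≤ z₀)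
    have hz₀0 : (0 : ℝ) < z₀ := by exact_mod_cast (by omega : 0 < z₀)
    have hXq0 : 0 < (X : ℝ) / q := by linarith
    have h5 : (X : ℝ) / (q * L) ≤ η / 4 * (X / q) := by
      rw [← div_div, div_le_iff₀ hL0]
      have h6 : 4 / η ≤ L := by linarith
      rw [div_le_iff₀ hη] at h6
      nlinarith
    have h7 : (2 * ((H : ℝ) / z₀) + (z : ℝ) ^ 2) / τ ^ 2 ≤ η / 2 * (X / q) := by
      rw [div_le_iff₀ (by positivity)]
      have h8 : 16 / (η * τ ^ 2) ≤ z₀ := hz₃b.trans hz₀r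
      have h9 : 2 * ((H : ℝ) / z₀) ≤ η / 4 * (X / q) * τ ^ 2 := by
        have h10 : (H : ℝ) / z₀ ≤ 2 * (X / q) / z₀ := div_le_div_of_nonneg_right hHhi hz₀0.le
        have h11 : 2 * ((X : ℝ) / q) / z₀ ≤ η / 8 * (X / q) * τ ^ 2 := by
          rw [div_le_iff₀ hz₀0]
          rw [div_le_iff₀ (by positivity)] at h8
          have h12 : 2 * ((X : ℝ) / q) = (X / q) / 8 * 16 := by ring
          rw [h12]
          have h13 : η / 8 * ((X : ℝ) / q) * τ ^ 2 * z₀ = (X / q) / 8 * (z₀ * (η * τ ^ 2)) := by ring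
          rw [h13]
          exact mul_le_mul_of_nonneg_left h8 (by positivity)
        linarith
      have h14 : (z : ℝ) ^ 2 ≤ η / 4 * (X / q) * τ ^ 2 := by
        have h15 : (z : ℝ) ^ 2 ≤ (L ^ 11) ^ 2 := pow_le_pow_left₀ (Nat.cast_nonneg _) hzhi 2
        have h16 : 4 / (η * τ ^ 2) ≤ L := by linarith
        rw [div_le_iff₀ (by positivity)] at h16
        have h17 : L ^ 23 ≤ X / q := by
          refine le_trans ?_ hXq
          exact hLp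
        have h18 : (L ^ 11) ^ 2 * 4 ≤ (L ^ 11) ^ 2 * (L * (η * τ ^ 2)) :=
          mul_le_mul_of_nonneg_left h16 (by positivity)
        have h19 : (L ^ 11) ^ 2 * (L * (η * τ ^ 2)) = L ^ 23 * (η * τ ^ 2) := by ring
        have h20 : L ^ 23 * (η * τ ^ 2) ≤ X / q * (η * τ ^ 2) := mul_le_mul_of_nonneg_right h17 (by positivity)
        nlinarith
      linarith
    have h21 : 0 ≤ η / 4 * ((X : ℝ) / q) := by positivity
    linarith
  · -- the conclusion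
    intro c hc1 hcX hcc hcE S hS
    rw [mem_union, not_or] at hcE
    obtain ⟨hnsq, htail⟩ := hE2 c hc1 hcX hcc hcE.1
    rw [← hL, pow_one] at htail
    have hD : (3 : ℤ) ^ 2 - 4 * 1 * c = 9 - 4 * c := by ring
    rw [hD] at hnsq htail
    have hcq : c % (q : ℤ) = c₁ := by rw [hc₁]; exact hcc
    have hcdiv : c = c₁ + q * (c / q) := by
      rw [← hcq]
      exact (Int.emod_add_mul_ediv c q).symm
    have hm0 : 0 ≤ c / (q : ℤ) := Int.ediv_nonneg (by omega) hqz.le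
    obtain ⟨m, hm⟩ : ∃ m : ℕ, (m : ℤ) = c / q := ⟨(c / (q : ℤ)).toNat, Int.toNat_of_nonneg hm0⟩
    rw [← hm] at hcdiv
    have hmH : m < H := by
      rw [hH]
      have h3 : (m : ℤ) ≤ (X / q : ℕ) := by
        rw [hm]
        push_cast
        exact Int.ediv_le_ediv hqz hcX
      have h4 : m ≤ X / q := by exact_mod_cast h3
      omega
    have hgood : |∑ p ∈ (Ioc z₀ z).filter (fun p => p.Prime ∧ ¬ p ∣ q), (jacobiSym (9 - 4 * c) p : ℝ) / p| ≤ τ := by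
      by_contra hcon
      rw [not_le] at hcon
      apply hcE.2
      rw [mem_image]
      refine ⟨m, ?_, hcdiv.symm⟩
      rw [hB, mem_filter, mem_range]
      refine ⟨hmH, ?_⟩
      have e : 9 - 4 * c₁ + -(4 * (q : ℤ)) * (m : ℤ) = 9 - 4 * c := by
        rw [hcdiv]
        ring
      rw [e, hP]
      exact hcon
    have hz₀2 : 2 ≤ z₀ := by omega
    have hz₀r : (48 : ℝ) / θ ≤ z₀ := hz₃a.trans (by exact_mod_cast (by omega : z₃ ≤ z₀))
    have hz₀0 : (0 : ℝ) < z₀ := by exact_mod_cast (by omega : 0 < z₀)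
    have h6z : 6 / (z₀ : ℝ) ≤ θ / 8 := by
      rw [div_le_div_iff₀ hz₀0 (by norm_num)]
      rw [div_le_iff₀ hθ0] at hz₀r
      linarith
    have h1L : 1 / L ≤ θ / 8 := by
      rw [div_le_div_iff₀ hL0 (by norm_num)]
      have h3 : 8 / θ ≤ L := by linarith
      rw [div_le_iff₀ hθ0] at h3
      linarith
    have h56 : 1 / (z₀ : ℝ) + 5 / z₀ = 6 / z₀ := by ring
    obtain ⟨Lc, hLc0, hLc, hLc1⟩ := PJ_lim (z := z₀) hnsq hz₀2 (δ := τ + 1 / z₀ + 1 / L) (by positivity) (by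
      rw [hτ]
      linarith) (by
      filter_upwards [htail, eventually_ge_atTop z] with N h3 hN
      exact SJ_bd (by omega) hz₀z hq1 hnear.2 hgood hN h3)
    have hLc2 : |Lc - 1| ≤ θ := by
      refine hLc1.trans ?_
      rw [hτ]
      linarith
    -- the limit
    have hcong : Sz (-1) (-3) c z₀ = Sz (-1) (-3) 1 z₀ := by
      apply Sz_congr
      intro p hp hpz
      obtain ⟨h3, h4⟩ := hnear.1 p hp hpz
      have h5 : (p : ℤ) ∣ c - c₀ := by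
        have h6 : (q : ℤ) ∣ c - c₀ := hcc.symm.dvd
        exact (Int.natCast_dvd_natCast.2 h3).trans h6
      have h7 := dvd_add h5 h4
      have e : c - c₀ + (c₀ - 1) = c - 1 := by ring
      rwa [e] at h7
    have hS' : S = Sz (-1) (-3) 1 z₀ * Lc := by
      have h3 : Tendsto (fun N : ℕ => Sz (-1) (-3) c N) atTop (𝓝 (Sz (-1) (-3) 1 z₀ * Lc)) := by
        refine (hLc.const_mul (Sz (-1) (-3) 1 z₀)).congr' ?_
        filter_upwards [eventually_ge_atTop z₀] with N hN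
        rw [Sz_split (a := 1) (b := 3) one_pos hz₀2 (by exact_mod_cast (by omega : 1 ≤ z₀)) hN, hD, hcong]
      exact tendsto_nhds_unique hS h3
    have h8 : |Sz (-1) (-3) 1 z₀ - C| ≤ θ := by
      have := hz₂ z₀ (by omega)
      rw [Real.dist_eq] at this
      exact this.le
    have h9 : S - C = (Sz (-1) (-3) 1 z₀ - C) * Lc + C * (Lc - 1) := by
      rw [hS']
      ring
    rw [h9]
    refine (abs_add_le _ _).trans ?_
    rw [abs_mul, abs_mul, abs_of_pos hLc0, abs_of_pos (by linarith : 0 < C)]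
    have h10 : Lc ≤ 2 := by
      have := (abs_le.1 hLc2).2
      linarith
    have h11 : |Sz (-1) (-3) 1 z₀ - C| * Lc ≤ θ * 2 := mul_le_mul h8 h10 hLc0.le hθ0.le
    have h12 : C * |Lc - 1| ≤ 4 * θ := mul_le_mul (by linarith) hLc2 (abs_nonneg _) (by norm_num)
    linarith

end Pool.Agent.T9h60.BH
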