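import Mathlib
import Pool.Agent.Cov.PNT

set_option autoImplicit false

/-! The prime number theorem, uniformly for `y ≤ K N`, and the sum of `1 / log (n² + 3 n + c)`. -/

namespace Pool.Agent.T9h60.BH
open Finset Filter Topology

lemma log_tendsto : Tendsto (fun N : ℕ => Real.log N) atTop atTop :=
  Real.tendsto_log_atTop.comp tendsto_natCast_atTop_atTop

/-- `log N ≤ e √N` -/
lemma log_sqrt (e : ℝ) (he : 0 < e) : ∀ᶠ N : ℕ in atTop, Real.log N ≤ e * Real.sqrt N := by
  have h := isLittleO_log_rpow_atTop (r := 1 / 2) (by norm_num)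
  have h2 := (h.bound he)
  have h3 := tendsto_natCast_atTop_atTop (R := ℝ) |>.eventually h2
  filter_upwards [h3, eventually_ge_atTop 1] with N h4 hN
  rw [← Real.sqrt_eq_rpow, Real.norm_of_nonneg (Real.sqrt_nonneg _)] at h4
  exact (le_abs_self _).trans h4

/-- the prime number theorem for `y ≤ K N` -/
lemma pnt_unif (K : ℕ) (hK : 1 ≤ K) (ε : ℝ) (hε : 0 < ε) : ∀ᶠ N : ℕ in atTop, ∀ y : ℕ, y ≤ K * N →
    |(Nat.primeCounting y : ℝ) - y / Real.log N| ≤ ε * (N / Real.log N) := by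
  have hK1 : (1 : ℝ) ≤ K := by exact_mod_cast hK
  have hK0 : (0 : ℝ) < K := by linarith
  obtain ⟨ε₁, hε₁⟩ : ∃ ε₁ : ℝ, ε₁ = ε / (4 * K) := ⟨_, rfl⟩
  have hε₁0 : 0 < ε₁ := by rw [hε₁]; positivity
  obtain ⟨x₀, hx₀⟩ := Metric.tendsto_atTop.1 Pool.Agent.Cov.PNT.pi_tendsto ε₁ hε₁0
  filter_upwards [log_tendsto.eventually_ge_atTop (4 * K ^ 2 / ε + 1), log_sqrt (ε / 2) (by positivity),
    eventually_ge_atTop (⌈|x₀|⌉₊ ^ 2 + 4)] with N h1 h2 h3 y hy
  obtain ⟨l, hl⟩ : ∃ l, l = Real.log (N : ℝ) := ⟨_, rfl⟩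
  rw [← hl] at h1 h2 ⊢
  have hN0 : (0 : ℝ) < N := by exact_mod_cast (by omega : 0 < N)
  have p1 : 0 < 4 * (K : ℝ) ^ 2 / ε := by positivity
  have hl1 : 1 ≤ l := by linarith
  have hl0 : 0 < l := by linarith
  have hs0 : 0 ≤ Real.sqrt N := Real.sqrt_nonneg _
  have hss : Real.sqrt N * Real.sqrt N = N := Real.mul_self_sqrt hN0.le
  have hs2 : 2 ≤ Real.sqrt N := by
    apply Real.le_sqrt_of_sq_le
    have : ((⌈|x₀|⌉₊ ^ 2 + 4 : ℕ) : ℝ) ≤ N := by exact_mod_cast h3
    push_cast at this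
    have h5 : (0 : ℝ) ≤ (⌈|x₀|⌉₊ : ℝ) ^ 2 := by positivity
    linarith
  have hsx : x₀ ≤ Real.sqrt N := by
    refine (le_abs_self _).trans ((Nat.le_ceil _).trans ?_)
    apply Real.le_sqrt_of_sq_le
    have : ((⌈|x₀|⌉₊ ^ 2 + 4 : ℕ) : ℝ) ≤ N := by exact_mod_cast h3
    push_cast at this
    linarith
  have hyr : (y : ℝ) ≤ K * N := by exact_mod_cast hy
  have hy0 : (0 : ℝ) ≤ y := Nat.cast_nonneg _
  by_cases hys : (y : ℝ) < Real.sqrt N
  · -- small `y`
    have h4 : (Nat.primeCounting y : ℝ) ≤ y := by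
      have h5 : Nat.primeCounting y ≤ y := by
        rw [Nat.primeCounting, Nat.primeCounting', Nat.count_eq_card_filter_range]
        calc #((range (y + 1)).filter Nat.Prime) ≤ #(Icc 1 y) := by
              apply card_le_card
              intro p hp
              rw [mem_filter, mem_range] at hp
              rw [mem_Icc]
              exact ⟨hp.2.one_le, by omega⟩
          _ = y := by simp
      exact_mod_cast h5
    have h6 : (0 : ℝ) ≤ Nat.primeCounting y := Nat.cast_nonneg _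
    have h7 : (y : ℝ) / l ≤ y := div_le_self hy0 hl1
    have h8 : 0 ≤ (y : ℝ) / l := by positivity
    have h9 : 2 * Real.sqrt N ≤ ε * (N / l) := by
      rw [mul_div_assoc', le_div_iff₀ hl0]
      calc 2 * Real.sqrt N * l ≤ 2 * Real.sqrt N * (ε / 2 * Real.sqrt N) := by gcongr
        _ = ε * (Real.sqrt N * Real.sqrt N) := by ring
        _ = ε * N := by rw [hss]
    rw [abs_le]
    constructor <;> linarith
  · rw [not_lt] at hys
    have hy2 : (2 : ℝ) ≤ y := hs2.trans hys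
    have hypos : (0 : ℝ) < y := by linarith
    have h4 := hx₀ y (hsx.trans hys)
    rw [Real.dist_eq, Nat.floor_natCast] at h4
    obtain ⟨ly, hly⟩ : ∃ ly, ly = Real.log (y : ℝ) := ⟨_, rfl⟩
    rw [← hly] at h4
    have hlyl : l / 2 ≤ ly := by
      rw [hly, hl, ← Real.log_sqrt hN0.le]
      exact Real.log_le_log (by linarith) hys
    have hly0 : 0 < ly := by linarith
    -- the first difference
    have h5 : |(Nat.primeCounting y : ℝ) - y / ly| ≤ ε₁ * (y / ly) := by
      have e : (Nat.primeCounting y : ℝ) - y / ly = ((Nat.primeCounting y : ℝ) * ly / y - 1) * (y / ly) := by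
        field_simp
      rw [e, abs_mul, abs_of_pos (show 0 < (y : ℝ) / ly by positivity)]
      exact mul_le_mul_of_nonneg_right h4.le (by positivity)
    have h6 : (y : ℝ) / ly ≤ 2 * K * (N / l) := by
      rw [div_le_iff₀ hly0]
      have h7 : 2 * (K : ℝ) * (N / l) * (l / 2) = K * N := by field_simp
      have h8 : 2 * (K : ℝ) * (N / l) * (l / 2) ≤ 2 * K * (N / l) * ly := by gcongr
      linarith
    -- the second difference
    have h7 : (y : ℝ) * |l - ly| ≤ K ^ 2 * N := by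
      have hNy : l - ly = Real.log (N / y) := by
        rw [hl, hly, Real.log_div hN0.ne' hypos.ne']
      rcases le_total ly l with h8 | h8
      · rw [abs_of_nonneg (by linarith), hNy]
        have h9 := Real.log_le_sub_one_of_pos (show 0 < (N : ℝ) / y by positivity)
        calc (y : ℝ) * Real.log (N / y) ≤ y * (N / y - 1) := by gcongr
          _ = N - y := by field_simp
          _ ≤ 1 ^ 2 * N := by linarith
          _ ≤ K ^ 2 * N := by gcongr
      · rw [abs_of_nonpos (by linarith)]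
        have hyN : -(l - ly) = Real.log (y / N) := by
          rw [hl, hly, Real.log_div hypos.ne' hN0.ne']
          ring
        rw [hyN]
        have h9 := Real.log_le_sub_one_of_pos (show 0 < (y : ℝ) / N by positivity)
        calc (y : ℝ) * Real.log (y / N) ≤ y * (y / N - 1) := by gcongr
          _ ≤ y * (y / N) := by
              apply mul_le_mul_of_nonneg_left _ hy0
              linarith
          _ ≤ (K * N) * (K * N / N) := by gcongr
          _ = K ^ 2 * N := by field_simp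
    have h8 : |(y : ℝ) / ly - y / l| ≤ 2 * K ^ 2 * (N / l) / l := by
      have e : (y : ℝ) / ly - y / l = y * (l - ly) / (ly * l) := by
        field_simp
      rw [e, abs_div, abs_mul, abs_of_nonneg hy0, abs_of_pos (show 0 < ly * l by positivity), div_le_div_iff₀ (by positivity) hl0]
      have h9 : 2 * (K : ℝ) ^ 2 * (N / l) * (l / 2 * l) ≤ 2 * K ^ 2 * (N / l) * (ly * l) := by gcongr
      have h10 : 2 * (K : ℝ) ^ 2 * (N / l) * (l / 2 * l) = K ^ 2 * N * l := by field_simp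
      have h11 : (y : ℝ) * |l - ly| * l ≤ K ^ 2 * N * l := mul_le_mul_of_nonneg_right h7 hl0.le
      linarith
    have h9 : 2 * (K : ℝ) ^ 2 * (N / l) / l ≤ ε / 2 * (N / l) := by
      rw [div_le_iff₀ hl0]
      have h10 : 4 * (K : ℝ) ^ 2 / ε ≤ l := by linarith
      rw [div_le_iff₀ hε] at h10
      have h11 : 0 ≤ (N : ℝ) / l := by positivity
      nlinarith
    have h10 : ε₁ * ((y : ℝ) / ly) ≤ ε / 2 * (N / l) := by
      calc ε₁ * ((y : ℝ) / ly) ≤ ε₁ * (2 * K * (N / l)) := by gcongr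
        _ = ε / 2 * (N / l) := by
            rw [hε₁]
            field_simp
            ring
    have e : (Nat.primeCounting y : ℝ) - y / l = ((Nat.primeCounting y : ℝ) - y / ly) + (y / ly - y / l) := by ring
    rw [e]
    refine (abs_add_le _ _).trans ?_
    linarith

/-- `A log log N ≤ e log N` -/
lemma log_log (A : ℕ) (e : ℝ) (he : 0 < e) : ∀ᶠ N : ℕ in atTop, A * Real.log (Real.log N) ≤ e * Real.log N := by
  have h := (Real.isLittleO_log_id_atTop.bound (show 0 < e / (A + 1) by positivity))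
  have h2 := log_tendsto.eventually h
  filter_upwards [h2, log_tendsto.eventually_ge_atTop 1] with N h3 h4
  simp only [id, Real.norm_eq_abs] at h3
  rw [abs_of_nonneg (show 0 ≤ Real.log N by linarith), abs_of_nonneg (Real.log_nonneg h4)] at h3
  have hA : (0 : ℝ) ≤ A := Nat.cast_nonneg _
  have h5 : A * Real.log (Real.log N) ≤ A * (e / (A + 1) * Real.log N) := mul_le_mul_of_nonneg_left h3 hA
  refine h5.trans ?_
  have h6 : A * (e / (A + 1) * Real.log N) = (A / (A + 1)) * (e * Real.log N) := by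
    field_simp
  rw [h6]
  have h7 : (A : ℝ) / (A + 1) ≤ 1 := by
    rw [div_le_one (by positivity)]
    linarith
  have h8 : 0 ≤ e * Real.log N := by
    apply mul_nonneg he.le
    linarith
  nlinarith

/-- the prime number theorem for `N / (log N) ^ A ≤ y ≤ N (log N) ^ A` -/
lemma pnt_rel (A : ℕ) (ε : ℝ) (hε : 0 < ε) : ∀ᶠ N : ℕ in atTop, ∀ y : ℕ, (N : ℝ) / Real.log N ^ A ≤ y →
    (y : ℝ) ≤ N * Real.log N ^ A → |(Nat.primeCounting y : ℝ) - y / Real.log N| ≤ ε * (y / Real.log N) := by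
  obtain ⟨e, he⟩ : ∃ e : ℝ, e = min (ε / 8) (1 / 2) := ⟨_, rfl⟩
  have he0 : 0 < e := by rw [he]; exact lt_min (by positivity) (by norm_num)
  have he1 : e ≤ ε / 8 := by rw [he]; exact min_le_left _ _
  have he2 : e ≤ 1 / 2 := by rw [he]; exact min_le_right _ _
  obtain ⟨x₀, hx₀⟩ := Metric.tendsto_atTop.1 Pool.Agent.Cov.PNT.pi_tendsto e he0
  filter_upwards [log_tendsto.eventually_ge_atTop 2, log_log A e he0, log_sqrt 1 one_pos,
    log_log (2 * A) 1 one_pos, eventually_ge_atTop (⌈|x₀|⌉₊ ^ 2 + 4)] with N h1 h2 h3 h4 h5 y hy1 hy2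
  obtain ⟨l, hl⟩ : ∃ l, l = Real.log (N : ℝ) := ⟨_, rfl⟩
  rw [← hl] at h1 h2 h3 h4 hy1 hy2 ⊢
  have hN0 : (0 : ℝ) < N := by exact_mod_cast (by omega : 0 < N)
  have hl0 : 0 < l := by linarith
  have hlA : 0 < l ^ A := by positivity
  -- `√N ≤ y`
  have h6 : l ^ A ≤ Real.sqrt N := by
    have h7 : Real.log (l ^ A) ≤ Real.log (Real.sqrt N) := by
      rw [Real.log_pow, Real.log_sqrt hN0.le, ← hl]
      push_cast at h4
      linarith
    have hsp : 0 < Real.sqrt N := Real.sqrt_pos.2 hN0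
    exact (Real.log_le_log_iff hlA hsp).1 h7
  have hss : Real.sqrt N * Real.sqrt N = N := Real.mul_self_sqrt hN0.le
  have hsy : Real.sqrt N ≤ y := by
    refine le_trans ?_ hy1
    rw [le_div_iff₀ hlA]
    calc Real.sqrt N * l ^ A ≤ Real.sqrt N * Real.sqrt N := by gcongr
      _ = N := hss
  have hsx : x₀ ≤ Real.sqrt N := by
    refine (le_abs_self _).trans ((Nat.le_ceil _).trans ?_)
    apply Real.le_sqrt_of_sq_le
    have : ((⌈|x₀|⌉₊ ^ 2 + 4 : ℕ) : ℝ) ≤ N := by exact_mod_cast h5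
    push_cast at this
    linarith
  have hypos : (0 : ℝ) < y := lt_of_lt_of_le (Real.sqrt_pos.2 hN0) hsy
  have h7 := hx₀ y (hsx.trans hsy)
  rw [Real.dist_eq, Nat.floor_natCast] at h7
  obtain ⟨ly, hly⟩ : ∃ ly, ly = Real.log (y : ℝ) := ⟨_, rfl⟩
  rw [← hly] at h7
  -- the logarithms
  have h8 : |ly - l| ≤ e * l := by
    have h9 : l - A * Real.log l ≤ ly := by
      have h10 := Real.log_le_log (by positivity) hy1
      rw [Real.log_div hN0.ne' hlA.ne', Real.log_pow, ← hl, ← hly] at h10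
      exact h10
    have h11 : ly ≤ l + A * Real.log l := by
      have h10 := Real.log_le_log hypos hy2
      rw [Real.log_mul hN0.ne' hlA.ne', Real.log_pow, ← hl, ← hly] at h10
      exact h10
    rw [abs_le]
    constructor <;> linarith
  have hlyl : l / 2 ≤ ly := by
    have h9 := (abs_le.1 h8).1
    have h10 : e * l ≤ 1 / 2 * l := mul_le_mul_of_nonneg_right he2 hl0.le
    linarith
  have hly0 : 0 < ly := by linarith
  have h9 : |(Nat.primeCounting y : ℝ) - y / ly| ≤ e * (y / ly) := by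
    have e1 : (Nat.primeCounting y : ℝ) - y / ly = ((Nat.primeCounting y : ℝ) * ly / y - 1) * (y / ly) := by
      field_simp
    rw [e1, abs_mul, abs_of_pos (show 0 < (y : ℝ) / ly by positivity)]
    exact mul_le_mul_of_nonneg_right h7.le (by positivity)
  have h10 : (y : ℝ) / ly ≤ 2 * (y / l) := by
    rw [div_le_iff₀ hly0]
    have h11 : 2 * ((y : ℝ) / l) * (l / 2) = y := by field_simp
    have h12 : 2 * ((y : ℝ) / l) * (l / 2) ≤ 2 * (y / l) * ly := by gcongr
    linarith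
  have h13 : |(y : ℝ) / ly - y / l| ≤ 2 * e * (y / l) := by
    have e1 : (y : ℝ) / ly - y / l = (y / ly) * (-(ly - l) / l) := by
      field_simp
      ring
    rw [e1, abs_mul, abs_of_pos (show 0 < (y : ℝ) / ly by positivity), abs_div, abs_neg, abs_of_pos hl0]
    calc (y : ℝ) / ly * (|ly - l| / l) ≤ 2 * (y / l) * (e * l / l) := by gcongr
      _ = 2 * e * (y / l) := by field_simp
  have e2 : (Nat.primeCounting y : ℝ) - y / l = ((Nat.primeCounting y : ℝ) - y / ly) + (y / ly - y / l) := by ring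
  rw [e2]
  refine (abs_add_le _ _).trans ?_
  have h14 : e * ((y : ℝ) / ly) ≤ e * (2 * (y / l)) := mul_le_mul_of_nonneg_left h10 he0.le
  have h15 : 4 * e * ((y : ℝ) / l) ≤ ε * (y / l) := by
    apply mul_le_mul_of_nonneg_right _ (by positivity)
    linarith
  linarith

/-- the densities -/
lemma log_term (A : ℕ) (δ₀ : ℝ) (hδ₀ : 0 < δ₀) (ε : ℝ) (hε : 0 < ε) : ∀ᶠ N : ℕ in atTop,
    ∀ c : ℤ, δ₀ * (N : ℝ) ^ 2 ≤ c → c ≤ (N : ℤ) ^ 2 → ∀ n : ℕ, (n : ℝ) ≤ N * Real.log N ^ A →
    |1 / Real.log (((n : ℤ) ^ 2 + 3 * n + c : ℤ) : ℝ) - 1 / (2 * Real.log N)| ≤ ε / Real.log N := by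
  obtain ⟨e, he⟩ : ∃ e : ℝ, e = min (ε / 2) (1 / 2) := ⟨_, rfl⟩
  have he0 : 0 < e := by rw [he]; exact lt_min (by positivity) (by norm_num)
  have he1 : e ≤ ε / 2 := by rw [he]; exact min_le_left _ _
  have he2 : e ≤ 1 / 2 := by rw [he]; exact min_le_right _ _
  obtain ⟨B, hB⟩ : ∃ B : ℝ, B = |Real.log δ₀| + Real.log 5 := ⟨_, rfl⟩
  have h50 : 0 ≤ Real.log 5 := Real.log_nonneg (by norm_num)
  have hB0 : 0 ≤ B := by rw [hB]; positivity
  filter_upwards [log_tendsto.eventually_ge_atTop (2 * B / e + 1), log_log (2 * A) (e / 2) (by positivity),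
    eventually_ge_atTop 1] with N h1 h2 hN c hc1 hc2 n hn
  obtain ⟨l, hl⟩ : ∃ l, l = Real.log (N : ℝ) := ⟨_, rfl⟩
  rw [← hl] at h1 h2 hn ⊢
  have p1 : 0 ≤ 2 * B / e := by positivity
  have hl1 : 1 ≤ l := by linarith
  have hl0 : 0 < l := by linarith
  have hlA : 1 ≤ l ^ A := one_le_pow₀ hl1
  have hN1 : (1 : ℝ) ≤ N := by exact_mod_cast hN
  have hN0 : (0 : ℝ) < N := by linarith
  have hn0 : (0 : ℝ) ≤ n := Nat.cast_nonneg _
  obtain ⟨v, hv⟩ : ∃ v : ℝ, v = (((n : ℤ) ^ 2 + 3 * n + c : ℤ) : ℝ) := ⟨_, rfl⟩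
  rw [← hv]
  have hv' : v = (n : ℝ) ^ 2 + 3 * n + c := by rw [hv]; push_cast; ring
  have hc2r : (c : ℝ) ≤ (N : ℝ) ^ 2 := by exact_mod_cast hc2
  have hlo : δ₀ * (N : ℝ) ^ 2 ≤ v := by
    rw [hv']
    nlinarith
  have hNl1 : 1 ≤ (N : ℝ) * l ^ A := by nlinarith
  have hup : v ≤ 5 * (N * l ^ A) ^ 2 := by
    rw [hv']
    have h3 : (n : ℝ) ^ 2 ≤ (N * l ^ A) ^ 2 := pow_le_pow_left₀ hn0 hn 2
    have h4 : (N : ℝ) * l ^ A ≤ (N * l ^ A) ^ 2 := by nlinarith
    have h5 : (N : ℝ) ^ 2 ≤ (N * l ^ A) ^ 2 := by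
      apply pow_le_pow_left₀ hN0.le
      nlinarith
    linarith
  have hlo0 : 0 < δ₀ * (N : ℝ) ^ 2 := by positivity
  have hv0 : 0 < v := lt_of_lt_of_le hlo0 hlo
  have e1 : Real.log (δ₀ * (N : ℝ) ^ 2) = Real.log δ₀ + 2 * l := by
    rw [Real.log_mul hδ₀.ne' (by positivity), Real.log_pow, hl]
    norm_num
  have hlA0 : 0 < l ^ A := by positivity
  have e2 : Real.log (5 * (N * l ^ A) ^ 2) = Real.log 5 + 2 * (l + A * Real.log l) := by
    rw [Real.log_mul (by norm_num) (by positivity), Real.log_pow, Real.log_mul hN0.ne' hlA0.ne', Real.log_pow, hl]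
    norm_num
  have h3 := Real.log_le_log hlo0 hlo
  have h4 := Real.log_le_log hv0 hup
  rw [e1] at h3
  rw [e2] at h4
  have h2B : B ≤ e / 2 * l := by
    have h5 : 2 * B / e ≤ l := by linarith
    rw [div_le_iff₀ he0] at h5
    linarith
  have h5 : |Real.log v - 2 * l| ≤ e * l := by
    have a1 := neg_abs_le (Real.log δ₀)
    have a3 := abs_nonneg (Real.log δ₀)
    push_cast at h2
    rw [hB] at h2B
    rw [abs_le]
    constructor
    · nlinarith
    · linarith
  have h6 : l ≤ Real.log v := by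
    have h7 := (abs_le.1 h5).1
    have h8 : e * l ≤ 1 / 2 * l := mul_le_mul_of_nonneg_right he2 hl0.le
    linarith
  have h7 : 0 < Real.log v := by linarith
  have e3 : 1 / Real.log v - 1 / (2 * l) = (2 * l - Real.log v) / (2 * l * Real.log v) := by
    field_simp
  rw [e3, abs_div, abs_of_pos (show 0 < 2 * l * Real.log v by positivity), abs_sub_comm]
  calc |Real.log v - 2 * l| / (2 * l * Real.log v) ≤ (e * l) / (2 * l * Real.log v) := by gcongr
    _ ≤ (e * l) / (2 * l * l) := by gcongr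
    _ = e / 2 / l := by field_simp
    _ ≤ ε / l := by
        apply div_le_div_of_nonneg_right _ hl0.le
        linarith

end Pool.Agent.T9h60.BH
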