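import Mathlib
import Pool.Agent.R460.SC.Fb
import Pool.Agent.T9h60.BH.Tail
import Pool.Agent.T9h60.BH.Pnt

set_option autoImplicit false

/-! Assembly. -/

namespace Pool.Agent.T9h60.BH
open Finset Filter Topology
open Pool.Agent.R460.SC (fin_true GoodT)
open Pool.Agent.R460.SB (Sz fv)
open Pool.Agent.Y614.GJ.Core (ev_log)

/-- the number of the `y₁ < k ≤ y₂` with `k² + 3 k + c` prime -/
def pcount (c : ℤ) (y₁ y₂ : ℕ) : ℕ := ((Ioc y₁ y₂).filter (fun k : ℕ => ((k : ℤ) ^ 2 + 3 * k + c).toNat.Prime)).card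

/-- the conclusion -/
def GoodN (C ε : ℝ) (A N : ℕ) (c : ℤ) : Prop :=
  (∀ y₁ y₂ : ℕ, y₁ ≤ y₂ → (y₂ : ℝ) ≤ N * Real.log N ^ A → (N : ℝ) / Real.log N ^ A ≤ (y₂ : ℝ) - y₁ →
    |(pcount c y₁ y₂ : ℝ) - C / 2 * (((y₂ : ℝ) - y₁) / Real.log N)| ≤ ε * (((y₂ : ℝ) - y₁) / Real.log N)) ∧
  ∀ y : ℕ, (N : ℝ) / Real.log N ^ A ≤ y → (y : ℝ) ≤ N * Real.log N ^ A →
    1.77 * (Nat.primeCounting y : ℝ) ≤ pcount c 0 y ∧ (pcount c 0 y : ℝ) ≤ 1.78 * Nat.primeCounting y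

lemma fv_eq (c : ℤ) (t : ℕ) : fv (-1) (-3) c t = (t : ℤ) ^ 2 + 3 * t + c := by
  unfold fv
  ring

open Classical in
theorem near_main (C : ℝ) (hC : Tendsto CC atTop (𝓝 C)) (ε ρ : ℝ) (hε : 0 < ε) (hρ : 0 < ρ) (A T : ℕ) :
    ∃ z₁ N₀ : ℕ, ∀ N : ℕ, N₀ ≤ N → ∀ z : ℕ, z₁ ≤ z → (z : ℝ) ≤ Real.log N →
      ∀ q : ℕ, 1 ≤ q → (q : ℝ) ≤ (N : ℝ) ^ (1 - ρ) → (q.divisors.card : ℝ) ≤ Real.log N ^ T →
      ∀ c₀ : ℤ, (Int.gcd (9 - 4 * c₀) q : ℝ) ≤ Real.log N ^ T → Near z q c₀ →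
        (((Icc 1 ((N : ℤ) ^ 2)).filter (fun c : ℤ => c ≡ c₀ [ZMOD q] ∧ ¬ GoodN C ε A N c)).card : ℝ) ≤
          ε * ((N : ℝ) ^ 2 / q) := by
  obtain ⟨hC1, hC2⟩ := const_bds C hC
  -- the accuracies
  obtain ⟨κ, hκ⟩ : ∃ κ : ℝ, κ = min (C / 2 - 1.77) (1.78 - C / 2) := ⟨_, rfl⟩
  have hκ0 : 0 < κ := by
    rw [hκ]
    apply lt_min
    · linarith
    · linarith
  have hκa : 1.77 + κ ≤ C / 2 := by
    have := min_le_left (C / 2 - 1.77) (1.78 - C / 2)
    rw [← hκ] at this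
    linarith
  have hκb : C / 2 + κ ≤ 1.78 := by
    have := min_le_right (C / 2 - 1.77) (1.78 - C / 2)
    rw [← hκ] at this
    linarith
  obtain ⟨e, he⟩ : ∃ e : ℝ, e = min (min ε (κ / 4)) 1 := ⟨_, rfl⟩
  have he0 : 0 < e := by
    rw [he]
    exact lt_min (lt_min hε (by positivity)) one_pos
  have he1 : e ≤ ε := by rw [he]; exact (min_le_left _ _).trans (min_le_left _ _)
  have he2 : e ≤ κ / 4 := by rw [he]; exact (min_le_left _ _).trans (min_le_right _ _)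
  have he3 : e ≤ 1 := by rw [he]; exact min_le_right _ _
  obtain ⟨μ, hμ⟩ : ∃ μ : ℝ, μ = e / 16 := ⟨_, rfl⟩
  have hμ0 : 0 < μ := by rw [hμ]; positivity
  have hμe : 16 * μ ≤ e := by linarith
  obtain ⟨η, hη⟩ : ∃ η : ℝ, η = ε / 4 := ⟨_, rfl⟩
  have hη0 : 0 < η := by rw [hη]; positivity
  obtain ⟨δ₀, hδ₀⟩ : ∃ δ₀ : ℝ, δ₀ = ε / 8 := ⟨_, rfl⟩
  have hδ₀0 : 0 < δ₀ := by rw [hδ₀]; positivity
  obtain ⟨z₁, hz₁, X₁, ht⟩ := tail_near (ρ / 2) (by positivity) C hC μ η hμ0 hη0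
  obtain ⟨X₂, hf⟩ := fin_true (a := 1) (b := 3) one_pos (ρ / 2) (by positivity) (2 * A + 1) (2 * A + 2) T
  obtain ⟨N₃, h3⟩ := Filter.eventually_atTop.1 (pnt_rel A μ hμ0)
  obtain ⟨N₄, h4⟩ := Filter.eventually_atTop.1 (log_term A δ₀ hδ₀0 μ hμ0)
  obtain ⟨N₅, h5⟩ := Filter.eventually_atTop.1 (log_tendsto.eventually_ge_atTop (16 / ε + 4 / μ + 2))
  obtain ⟨N₆, h6⟩ : ∃ N₆ : ℕ, 8 / ε ≤ N₆ := ⟨_, Nat.le_ceil _⟩
  refine ⟨z₁, X₁ + X₂ + N₃ + N₄ + N₅ + N₆ + 2, fun N hN z hz hzN q hq1 hqN hτ c₀ hg hnear => ?_⟩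
  have hN1 : 1 ≤ N := by omega
  have hN2 : (2 : ℝ) ≤ N := by exact_mod_cast (by omega : 2 ≤ N)
  have hN0 : (0 : ℝ) < N := by linarith
  obtain ⟨l, hl⟩ : ∃ l, l = Real.log (N : ℝ) := ⟨_, rfl⟩
  have h5' := h5 N (by omega)
  rw [← hl] at h5' hτ hg hzN
  have p1 : 0 < 16 / ε := by positivity
  have p2 : 0 < 4 / μ := by positivity
  have hl2 : 2 ≤ l := by linarith
  have hl0 : 0 < l := by linarith
  have hl1 : 1 ≤ l := by linarith
  have hlA1 : 1 ≤ l ^ A := one_le_pow₀ hl1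
  have hlA0 : 0 < l ^ A := by positivity
  obtain ⟨K, hKd⟩ : ∃ K : ℕ, K = ⌈l ^ A⌉₊ := ⟨_, rfl⟩
  have hKlo : l ^ A ≤ K := by rw [hKd]; exact Nat.le_ceil _
  have hKhi : (K : ℝ) ≤ 2 * l ^ A := by
    rw [hKd]
    have := Nat.ceil_lt_add_one hlA0.le
    linarith
  have hK1 : (1 : ℝ) ≤ K := hlA1.trans hKlo
  have hK : 1 ≤ K := by exact_mod_cast hK1
  have hK0 : (0 : ℝ) < K := by linarith
  obtain ⟨X, hX⟩ : ∃ X : ℕ, X = (K * N) ^ 2 := ⟨_, rfl⟩
  have hKN : N ≤ K * N := Nat.le_mul_of_pos_left N (by omega)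
  have hNX : N ≤ X := by
    rw [hX]
    exact hKN.trans (Nat.le_self_pow (by norm_num) _)
  have hXr : (X : ℝ) = (K * N) ^ 2 := by rw [hX]; push_cast; ring
  have hX0 : (0 : ℝ) < X := by rw [hXr]; positivity
  have hlX : l ≤ Real.log X := by
    rw [hl]
    exact Real.log_le_log hN0 (by exact_mod_cast hNX)
  have hq0 : (0 : ℝ) < q := by exact_mod_cast hq1
  have hqX : (q : ℝ) ≤ (X : ℝ) ^ (1 / 2 - ρ / 2) := by
    refine hqN.trans ?_
    rw [hXr]
    have h7 : ((K : ℝ) * N) ^ 2 = ((K : ℝ) * N) ^ (2 : ℝ) := by rw [← Real.rpow_natCast]; norm_num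
    rw [h7, ← Real.rpow_mul (by positivity)]
    have h8 : (2 : ℝ) * (1 / 2 - ρ / 2) = 1 - ρ := by ring
    rw [h8]
    by_cases hρ1 : ρ ≤ 1
    · apply Real.rpow_le_rpow hN0.le _ (by linarith)
      exact le_mul_of_one_le_left hN0.le hK1
    · rw [not_le] at hρ1
      have h9 : (N : ℝ) ^ (1 - ρ) < 1 := Real.rpow_lt_one_of_one_lt_of_neg (by linarith) (by linarith)
      have h10 : (1 : ℝ) ≤ q := by exact_mod_cast hq1
      linarith
  have hqN1 : (q : ℝ) ≤ N := by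
    refine hqN.trans ?_
    calc (N : ℝ) ^ (1 - ρ) ≤ (N : ℝ) ^ (1 : ℝ) := Real.rpow_le_rpow_of_exponent_le (by linarith) (by linarith)
      _ = N := Real.rpow_one _
  -- the three exceptional sets
  have hN22 : N ≤ N ^ 2 := Nat.le_self_pow (by norm_num) N
  have hq2 : (q : ℝ) ≤ ((N ^ 2 : ℕ) : ℝ) ^ (1 / 2 - ρ / 2) := by
    refine hqN.trans (le_of_eq ?_)
    push_cast
    have h7 : (N : ℝ) ^ 2 = (N : ℝ) ^ (2 : ℝ) := by rw [← Real.rpow_natCast]; norm_num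
    rw [h7, ← Real.rpow_mul hN0.le]
    congr 1
    ring
  have hz2 : (z : ℝ) ≤ Real.log ((N ^ 2 : ℕ) : ℝ) := by
    refine hzN.trans ?_
    rw [hl]
    exact Real.log_le_log hN0 (by exact_mod_cast hN22)
  obtain ⟨Ex, hE1, hE2⟩ := ht (N ^ 2) (by omega) z hz hz2 q hq1 hq2 c₀ hnear
  have hτX : (q.divisors.card : ℝ) ≤ Real.log X ^ T := hτ.trans (pow_le_pow_left₀ hl0.le hlX T)
  have hgX : (Int.gcd (3 ^ 2 - 4 * 1 * c₀) q : ℝ) ≤ Real.log X ^ T := by
    have : (3 : ℤ) ^ 2 - 4 * 1 * c₀ = 9 - 4 * c₀ := by ring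
    rw [this]
    exact hg.trans (pow_le_pow_left₀ hl0.le hlX T)
  have hF := hf X (by omega) q hq1 hqX hτX c₀ hgX
  obtain ⟨F, hFd⟩ : ∃ F, F = (Icc 1 (X : ℤ)).filter (fun c : ℤ => c ≡ c₀ [ZMOD q] ∧ ¬ GoodT 1 3 (2 * A + 2) X c) := ⟨_, rfl⟩
  rw [← hFd] at hF
  obtain ⟨G, hG⟩ : ∃ G, G = (Icc 1 ⌊δ₀ * (N : ℝ) ^ 2⌋).filter (fun c : ℤ => c ≡ c₀ [ZMOD q]) := ⟨_, rfl⟩
  have hqz : (0 : ℤ) < q := by exact_mod_cast hq1
  have hGc : (#G : ℝ) ≤ ε / 4 * ((N : ℝ) ^ 2 / q) := by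
    have h7 : (G.card : ℤ) ≤ ⌊δ₀ * (N : ℝ) ^ 2⌋ / q + 1 := by
      have hM0 : 0 ≤ ⌊δ₀ * (N : ℝ) ^ 2⌋ := Int.floor_nonneg.2 (by positivity)
      obtain ⟨M, hM⟩ : ∃ M : ℕ, (M : ℤ) = ⌊δ₀ * (N : ℝ) ^ 2⌋ := ⟨_, Int.toNat_of_nonneg hM0⟩
      rw [← hM]
      have h8 : G.card ≤ (Icc 0 (M / q)).card := by
        apply card_le_card_of_injOn (fun c : ℤ => (c / q).toNat)
        · intro c hc
          rw [hG, ← hM] at hc
          simp only [coe_filter, mem_Icc, Set.mem_ofPred_eq] at hc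
          simp only [coe_Icc, Set.mem_Icc]
          refine ⟨Nat.zero_le _, ?_⟩
          rw [Int.toNat_le]
          push_cast
          exact Int.ediv_le_ediv hqz hc.1.2
        · intro c hc c' hc' heq
          rw [hG] at hc hc'
          simp only [coe_filter, mem_Icc, Set.mem_ofPred_eq] at hc hc'
          have h9 : 0 ≤ c / (q : ℤ) := Int.ediv_nonneg (by omega) hqz.le
          have h10 : 0 ≤ c' / (q : ℤ) := Int.ediv_nonneg (by omega) hqz.le
          have h11 : c / (q : ℤ) = c' / q := by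
            have h12 : (((c / (q : ℤ)).toNat : ℕ) : ℤ) = ((c' / (q : ℤ)).toNat : ℕ) := by exact_mod_cast heq
            rwa [Int.toNat_of_nonneg h9, Int.toNat_of_nonneg h10] at h12
          have h13 : c % (q : ℤ) = c' % q := by
            have h14 : c ≡ c' [ZMOD q] := hc.2.trans hc'.2.symm
            exact h14
          rw [← Int.emod_add_mul_ediv c q, ← Int.emod_add_mul_ediv c' q, h11, h13]
      rw [Nat.card_Icc] at h8
      have h9 : G.card ≤ M / q + 1 := by omega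
      exact_mod_cast h9
    have h8 : (#G : ℝ) ≤ δ₀ * (N : ℝ) ^ 2 / q + 1 := by
      have h9 : ((#G : ℤ) : ℝ) ≤ ((⌊δ₀ * (N : ℝ) ^ 2⌋ / (q : ℤ) + 1 : ℤ) : ℝ) := by exact_mod_cast h7
      push_cast at h9
      have h10 : ((⌊δ₀ * (N : ℝ) ^ 2⌋ / (q : ℤ) : ℤ) : ℝ) ≤ δ₀ * (N : ℝ) ^ 2 / q := by
        rw [le_div_iff₀ hq0]
        have h11 : (⌊δ₀ * (N : ℝ) ^ 2⌋ / (q : ℤ)) * q ≤ ⌊δ₀ * (N : ℝ) ^ 2⌋ := Int.ediv_mul_le _ hqz.ne'
        have h12 : ((⌊δ₀ * (N : ℝ) ^ 2⌋ / (q : ℤ) : ℤ) : ℝ) * q ≤ (⌊δ₀ * (N : ℝ) ^ 2⌋ : ℝ) := by exact_mod_cast h11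
        exact h12.trans (Int.floor_le _)
      linarith
    have h9 : 1 ≤ δ₀ * ((N : ℝ) ^ 2 / q) := by
      have h10 : (N : ℝ) ≤ (N : ℝ) ^ 2 / q := by
        rw [le_div_iff₀ hq0, sq]
        exact mul_le_mul_of_nonneg_left hqN1 hN0.le
      have h11 : 8 / ε ≤ N := h6.trans (by exact_mod_cast (by omega : N₆ ≤ N))
      rw [div_le_iff₀ hε] at h11
      calc (1 : ℝ) ≤ δ₀ * N := by rw [hδ₀]; linarith
        _ ≤ δ₀ * ((N : ℝ) ^ 2 / q) := mul_le_mul_of_nonneg_left h10 hδ₀0.le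
    have h10 : δ₀ * (N : ℝ) ^ 2 / q = δ₀ * ((N : ℝ) ^ 2 / q) := by ring
    have h11 : ε / 4 * ((N : ℝ) ^ 2 / q) = 2 * (δ₀ * ((N : ℝ) ^ 2 / q)) := by rw [hδ₀]; ring
    linarith
  have hsub : (Icc 1 ((N : ℤ) ^ 2)).filter (fun c : ℤ => c ≡ c₀ [ZMOD q] ∧ ¬ GoodN C ε A N c) ⊆ Ex ∪ F ∪ G := by
    intro c hc
    rw [mem_filter, mem_Icc] at hc
    obtain ⟨⟨hc1, hcN⟩, hcc, hbad⟩ := hc
    by_contra hcon
    rw [mem_union, mem_union, not_or, not_or] at hcon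
    obtain ⟨⟨hcE, hcF⟩, hcG⟩ := hcon
    apply hbad
    have hcX : c ≤ X := by
      refine hcN.trans ?_
      have : N ^ 2 ≤ X := by
        rw [hX]
        exact Nat.pow_le_pow_left hKN 2
      exact_mod_cast this
    have hgood : GoodT 1 3 (2 * A + 2) X c := by
      by_contra h7
      apply hcF
      rw [hFd, mem_filter, mem_Icc]
      exact ⟨⟨hc1, hcX⟩, hcc, h7⟩
    have hcδ : δ₀ * (N : ℝ) ^ 2 ≤ c := by
      by_contra h7
      rw [not_le] at h7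
      apply hcG
      rw [hG, mem_filter, mem_Icc]
      exact ⟨⟨hc1, Int.le_floor.2 h7.le⟩, hcc⟩
    obtain ⟨-, S, hS, hcount⟩ := hgood
    have hSC : |S - C| ≤ μ := hE2 c hc1 (by exact_mod_cast hcN) hcc hcE S hS
    -- the comparison
    have key : ∀ y₁ y₂ : ℕ, y₁ ≤ y₂ → (y₂ : ℝ) ≤ N * l ^ A → (N : ℝ) / l ^ A ≤ (y₂ : ℝ) - y₁ →
        |(pcount c y₁ y₂ : ℝ) - C / 2 * (((y₂ : ℝ) - y₁) / l)| ≤ e * (((y₂ : ℝ) - y₁) / l) := by
      intro y₁ y₂ h12 hyr hΔ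
      have hy : y₂ ≤ K * N := by
        have h7 : (y₂ : ℝ) ≤ K * N := hyr.trans (by rw [mul_comm]; exact mul_le_mul_of_nonneg_right hKlo hN0.le)
        exact_mod_cast h7
      have h7 := hcount y₂ (by rw [hX]; exact Nat.pow_le_pow_left hy 2)
      have h8 := hcount y₁ (by rw [hX]; exact Nat.pow_le_pow_left (h12.trans hy) 2)
      simp only [fv_eq] at h7 h8
      obtain ⟨Δ, hΔd⟩ : ∃ Δ : ℝ, Δ = (y₂ : ℝ) - y₁ := ⟨_, rfl⟩
      rw [← hΔd] at hΔ ⊢
      have hΔ0 : 0 < Δ := lt_of_lt_of_le (by positivity) hΔ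
      -- the sums over the interval
      have hI : Icc 1 y₂ = Icc 1 y₁ ∪ Ioc y₁ y₂ := by
        ext n
        simp only [mem_union, mem_Icc, mem_Ioc]
        omega
      have hd : Disjoint (Icc 1 y₁) (Ioc y₁ y₂) := by
        rw [disjoint_left]
        intro n hn hn'
        simp only [mem_Icc, mem_Ioc] at hn hn'
        omega
      obtain ⟨w, hw⟩ : ∃ w : ℕ → ℝ, w = fun n : ℕ => 1 / Real.log (((n : ℤ) ^ 2 + 3 * n + c : ℤ) : ℝ) := ⟨_, rfl⟩
      have hs : ∑ n ∈ Icc 1 y₂, w n = ∑ n ∈ Icc 1 y₁, w n + ∑ n ∈ Ioc y₁ y₂, w n := by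
        rw [hI, sum_union hd]
      have hp : (((Icc 1 y₂).filter (fun k : ℕ => ((k : ℤ) ^ 2 + 3 * k + c).toNat.Prime)).card : ℝ) =
          ((Icc 1 y₁).filter (fun k : ℕ => ((k : ℤ) ^ 2 + 3 * k + c).toNat.Prime)).card + pcount c y₁ y₂ := by
        rw [hI, filter_union, card_union_of_disjoint (disjoint_filter_filter hd)]
        unfold pcount
        push_cast
        rfl
      have hw7 : |(((Icc 1 y₂).filter (fun k : ℕ => ((k : ℤ) ^ 2 + 3 * k + c).toNat.Prime)).card : ℝ) -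
          S * ∑ n ∈ Icc 1 y₂, w n| ≤ Real.sqrt X / Real.log X ^ (2 * A + 2) := by rw [hw]; exact h7
      have hw8 : |(((Icc 1 y₁).filter (fun k : ℕ => ((k : ℤ) ^ 2 + 3 * k + c).toNat.Prime)).card : ℝ) -
          S * ∑ n ∈ Icc 1 y₁, w n| ≤ Real.sqrt X / Real.log X ^ (2 * A + 2) := by rw [hw]; exact h8
      rw [hp, hs] at hw7
      obtain ⟨s, hsd⟩ : ∃ s, s = ∑ n ∈ Ioc y₁ y₂, w n := ⟨_, rfl⟩
      rw [← hsd] at hw7
      have hs9 : |s - Δ / (2 * l)| ≤ μ * (Δ / l) := by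
        have e1 : s - Δ / (2 * l) = ∑ n ∈ Ioc y₁ y₂, (w n - 1 / (2 * l)) := by
          rw [sum_sub_distrib, sum_const, Nat.card_Ioc, nsmul_eq_mul, Nat.cast_sub h12, hsd, hΔd]
          ring
        rw [e1]
        refine (abs_sum_le_sum_abs _ _).trans ?_
        calc ∑ n ∈ Ioc y₁ y₂, |w n - 1 / (2 * l)| ≤ ∑ n ∈ Ioc y₁ y₂, μ / l := by
              apply sum_le_sum
              intro n hn
              rw [mem_Ioc] at hn
              have hn2 : (n : ℝ) ≤ y₂ := by exact_mod_cast hn.2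
              have := h4 N (by omega) c hcδ hcN n (by rw [← hl]; exact hn2.trans hyr)
              rw [← hl] at this
              rw [hw]
              exact this
          _ = μ * (Δ / l) := by
              rw [sum_const, Nat.card_Ioc, nsmul_eq_mul, Nat.cast_sub h12, hΔd]
              ring
      have h10 : Real.sqrt X / Real.log X ^ (2 * A + 2) ≤ μ / 2 * (Δ / l) := by
        have h11 : Real.sqrt X = K * N := by
          rw [hXr]
          exact Real.sqrt_sq (by positivity)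
        rw [h11]
        have h12 : l ^ (2 * A + 2) ≤ Real.log X ^ (2 * A + 2) := pow_le_pow_left₀ hl0.le hlX _
        have h13 : 4 / μ ≤ l := by linarith
        rw [div_le_iff₀ hμ0] at h13
        have h14 : 0 < l ^ (2 * A + 2) := by positivity
        have h15 : l ^ (2 * A + 2) = l ^ A * l ^ A * l * l := by
          rw [pow_add, two_mul, pow_add]
          ring
        calc (K : ℝ) * N / Real.log X ^ (2 * A + 2) ≤ K * N / l ^ (2 * A + 2) := by gcongr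
          _ ≤ (2 * l ^ A) * N / l ^ (2 * A + 2) := by gcongr
          _ ≤ ((l * μ / 2) * l ^ A) * N / l ^ (2 * A + 2) := by
              apply div_le_div_of_nonneg_right _ h14.le
              apply mul_le_mul_of_nonneg_right _ hN0.le
              apply mul_le_mul_of_nonneg_right _ hlA0.le
              linarith
          _ = μ / 2 * (N / l ^ A / l) := by
              rw [h15]
              field_simp
          _ ≤ μ / 2 * (Δ / l) := by gcongr
      have a1 : |(pcount c y₁ y₂ : ℝ) - S * s| ≤ μ * (Δ / l) := by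
        have e1 : (pcount c y₁ y₂ : ℝ) - S * s =
            ((((Icc 1 y₁).filter (fun k : ℕ => ((k : ℤ) ^ 2 + 3 * k + c).toNat.Prime)).card : ℝ) + pcount c y₁ y₂ -
              S * (∑ n ∈ Icc 1 y₁, w n + s)) -
            ((((Icc 1 y₁).filter (fun k : ℕ => ((k : ℤ) ^ 2 + 3 * k + c).toNat.Prime)).card : ℝ) -
              S * ∑ n ∈ Icc 1 y₁, w n) := by ring
        rw [e1]
        refine (abs_sub _ _).trans ?_
        linarith
      have hDl : 0 < Δ / l := by positivity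
      have a2 : |(S - C) * s| ≤ μ * (Δ / l) := by
        rw [abs_mul]
        have h15 : |s| ≤ Δ / l := by
          have h16 : s = (s - Δ / (2 * l)) + Δ / (2 * l) := by ring
          rw [h16]
          refine (abs_add_le _ _).trans ?_
          rw [abs_of_pos (show 0 < Δ / (2 * l) by positivity)]
          have h17 : Δ / (2 * l) = 1 / 2 * (Δ / l) := by field_simp
          rw [h17] at hs9 ⊢
          have h18 : μ * (Δ / l) ≤ 1 / 2 * (Δ / l) := by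
            apply mul_le_mul_of_nonneg_right _ hDl.le
            linarith
          linarith
        exact mul_le_mul hSC h15 (abs_nonneg _) hμ0.le
      have a3 : |C * (s - Δ / (2 * l))| ≤ 3.56 * (μ * (Δ / l)) := by
        rw [abs_mul, abs_of_pos (by linarith : 0 < C)]
        exact mul_le_mul hC2.le hs9 (abs_nonneg _) (by norm_num)
      have e1 : (pcount c y₁ y₂ : ℝ) - C / 2 * (Δ / l) = ((pcount c y₁ y₂ : ℝ) - S * s) + (S - C) * s +
          C * (s - Δ / (2 * l)) := by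
        field_simp
        ring
      rw [e1]
      have a5 := abs_add_le (((pcount c y₁ y₂ : ℝ) - S * s) + (S - C) * s) (C * (s - Δ / (2 * l)))
      have a6 := abs_add_le ((pcount c y₁ y₂ : ℝ) - S * s) ((S - C) * s)
      have a8 : 16 * (μ * (Δ / l)) ≤ e * (Δ / l) := by
        rw [← mul_assoc]
        exact mul_le_mul_of_nonneg_right hμe hDl.le
      have a9 : 0 < μ * (Δ / l) := by positivity
      linarith
    refine ⟨fun y₁ y₂ h12 hy hΔ => ?_, fun y hy1 hy2 => ?_⟩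
    · rw [← hl] at hy hΔ ⊢
      refine (key y₁ y₂ h12 hy hΔ).trans ?_
      apply mul_le_mul_of_nonneg_right he1
      apply div_nonneg _ hl0.le
      have : (y₁ : ℝ) ≤ y₂ := by exact_mod_cast h12
      linarith
    · have h8 := h3 N (by omega) y hy1 hy2
      rw [← hl] at h8 hy1 hy2
      have h9 := key 0 y (Nat.zero_le _) hy2 (by
        push_cast
        rw [sub_zero]
        exact hy1)
      push_cast at h9
      rw [sub_zero] at h9
      obtain ⟨t, htd⟩ : ∃ t, t = (y : ℝ) / l := ⟨_, rfl⟩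
      have ht0 : 0 ≤ t := by rw [htd]; positivity
      rw [← htd, hμ] at h8
      rw [← htd] at h9
      have h11 := abs_le.1 h8
      have h12 := abs_le.1 h9
      have h13 : (1 + e / 16) * 1.77 + κ / 2 ≤ C / 2 := by linarith
      have h14 : C / 2 + κ / 2 ≤ (1 - e / 16) * 1.78 := by linarith
      constructor
      · have h15 : (Nat.primeCounting y : ℝ) ≤ (1 + e / 16) * t := by linarith [h11.2]
        have h16 : (C / 2 - e) * t ≤ pcount c 0 y := by linarith [h12.1]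
        have h17 : 1.77 * ((1 + e / 16) * t) ≤ (C / 2 - e) * t := by
          have : 1.77 * ((1 + e / 16) * t) = ((1 + e / 16) * 1.77) * t := by ring
          rw [this]
          apply mul_le_mul_of_nonneg_right _ ht0
          linarith
        linarith
      · have h15 : (1 - e / 16) * t ≤ (Nat.primeCounting y : ℝ) := by linarith [h11.1]
        have h16 : (pcount c 0 y : ℝ) ≤ (C / 2 + e) * t := by linarith [h12.2]
        have h17 : (C / 2 + e) * t ≤ 1.78 * ((1 - e / 16) * t) := by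
          have : 1.78 * ((1 - e / 16) * t) = ((1 - e / 16) * 1.78) * t := by ring
          rw [this]
          apply mul_le_mul_of_nonneg_right _ ht0
          linarith
        linarith
  have hcard : (((Icc 1 ((N : ℤ) ^ 2)).filter (fun c : ℤ => c ≡ c₀ [ZMOD q] ∧ ¬ GoodN C ε A N c)).card : ℝ) ≤
      #Ex + #F + #G := by
    have h7 := (card_le_card hsub).trans ((card_union_le _ _).trans (Nat.add_le_add_right (card_union_le _ _) _))
    exact_mod_cast h7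
  refine hcard.trans ?_
  have hb1 : (#Ex : ℝ) ≤ ε / 4 * ((N : ℝ) ^ 2 / q) := by
    refine hE1.trans (le_of_eq ?_)
    rw [hη]
    push_cast
    ring
  have hb2 : (#F : ℝ) ≤ ε / 4 * ((N : ℝ) ^ 2 / q) := by
    refine hF.trans ?_
    have h7 : 16 / ε ≤ l := by linarith
    rw [div_le_iff₀ hε] at h7
    have h8 : l ^ (2 * A + 1) ≤ Real.log X ^ (2 * A + 1) := pow_le_pow_left₀ hl0.le hlX _
    have h9 : l ^ (2 * A + 1) = l ^ A * l ^ A * l := by
      rw [pow_add, two_mul, pow_add]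
      ring
    have h10 : (X : ℝ) ≤ 4 * (l ^ A * l ^ A) * (N : ℝ) ^ 2 := by
      rw [hXr]
      have h11 : (K : ℝ) * N ≤ (2 * l ^ A) * N := by gcongr
      calc ((K : ℝ) * N) ^ 2 ≤ ((2 * l ^ A) * N) ^ 2 := pow_le_pow_left₀ (by positivity) h11 2
        _ = 4 * (l ^ A * l ^ A) * (N : ℝ) ^ 2 := by ring
    calc (X : ℝ) / (q * Real.log X ^ (2 * A + 1)) ≤ X / (q * l ^ (2 * A + 1)) := by gcongr
      _ ≤ (4 * (l ^ A * l ^ A) * (N : ℝ) ^ 2) / (q * l ^ (2 * A + 1)) := by gcongr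
      _ = 4 / l * ((N : ℝ) ^ 2 / q) := by
          rw [h9]
          field_simp
      _ ≤ ε / 4 * ((N : ℝ) ^ 2 / q) := by
          apply mul_le_mul_of_nonneg_right _ (by positivity)
          rw [div_le_div_iff₀ hl0 (by norm_num)]
          linarith
  have hb4 : 0 ≤ ε / 4 * ((N : ℝ) ^ 2 / q) := by positivity
  linarith

end Pool.Agent.T9h60.BH
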