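import Mathlib
import Pool.Agent.N728.QU.AllG
import Pool.Agent.N67.QV.LSUM
import Pool.Agent.T9h60.BH.Tail
import Pool.Agent.T9h60.BH.Pnt

set_option autoImplicit false

/-! The thin family `k² + 3 k + 1 - (h² + 3 h)`, `h ≡ 0 (mod W)`. -/

namespace Pool.Agent.T9h60.BH
open Finset Filter Topology
open Pool.Agent.N728.QU (Vg Sqg cntg Tame Adg finalGU)
open Pool.Agent.N814.QV (wg xg fac_eq' xg_mod xg_abs xg_half avg_xg Sqg_split wg_mod)
open Pool.Agent.N123.QU (secondG wt_nonneg)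
open Pool.Agent.R460.SB (Sz Sz_prod QS)
open Pool.Agent.H373R2.T7 (pz nuB mem_pz)
open Pool.Agent.N170.QG (ratio tel_prime)

lemma perm_sum {p W : ℕ} (hp : p.Prime) (hW : ¬ p ∣ W) (f : ℕ → ℝ) (hf : ∀ b, f (b % p) = f b) :
    ∑ m ∈ range p, f (W * m) = ∑ h ∈ range p, f h := by
  have hcop : Nat.Coprime p W := (Nat.Prime.coprime_iff_not_dvd hp).2 hW
  have hinj : Set.InjOn (fun m : ℕ => (W * m) % p) (range p : Set ℕ) := by
    intro a ha b hb hab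
    simp only [coe_range, Set.mem_Iio] at ha hb
    have h1 : W * a ≡ W * b [MOD p] := hab
    have h2 : a ≡ b [MOD p] := Nat.ModEq.cancel_left_of_coprime hcop h1
    have h3 : a % p = b % p := h2
    rwa [Nat.mod_eq_of_lt ha, Nat.mod_eq_of_lt hb] at h3
  have himg : (range p).image (fun m : ℕ => (W * m) % p) = range p := by
    apply eq_of_subset_of_card_le
    · intro x hx
      rw [mem_image] at hx
      obtain ⟨m, _, rfl⟩ := hx
      rw [mem_range]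
      exact Nat.mod_lt _ hp.pos
    · rw [card_image_of_injOn hinj]
  calc ∑ m ∈ range p, f (W * m) = ∑ m ∈ range p, f ((W * m) % p) := sum_congr rfl fun m _ => (hf _).symm
    _ = ∑ h ∈ (range p).image (fun m : ℕ => (W * m) % p), f h := (sum_image hinj).symm
    _ = ∑ h ∈ range p, f h := by rw [himg]

/-- the multiples of `V` are close to `0`, up to the prime 2 -/
def NearO (z V : ℕ) : Prop :=
  (∀ p : ℕ, p.Prime → p ≤ z → p ≠ 2 → p ∣ V) ∧ ∑ p ∈ V.primeFactors.filter (fun p => z < p), 1 / (p : ℝ) ≤ 1 / z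

lemma not_dvd_two {p : ℕ} (hp : 2 < p) : ¬ (p : ℤ) ∣ 2 * 1 := by
  intro h
  have := Int.le_of_dvd (by norm_num) h
  omega

/-- the second moment along the multiples of `W` -/
lemma thin_var {z Z W : ℕ} (hz : 2 ≤ z) (hZ : z ≤ Z) (B : ℕ) (δ : ℝ) (hδ : 0 < δ) :
    (((Icc 1 B).filter (fun m : ℕ => δ < |∑ p ∈ (Ioc z Z).filter (fun p => p.Prime ∧ ¬ p ∣ W),
      xg 1 3 1 1 p (W * m)|)).card : ℝ) * δ ^ 2 ≤ 4 * ((B : ℝ) + 1) / z + 5 * (Z : ℝ) ^ 2 := by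
  obtain ⟨P, hP⟩ : ∃ P, P = (Ioc z Z).filter (fun p => p.Prime ∧ ¬ p ∣ W) := ⟨_, rfl⟩
  rw [← hP]
  have hPs : ∀ p ∈ P, p.Prime ∧ z < p ∧ p ≤ Z ∧ ¬ p ∣ W := by
    intro p hp
    rw [hP, mem_filter, mem_Ioc] at hp
    exact ⟨hp.2.1, hp.1.1, hp.1.2, hp.2.2⟩
  have hzr : (2 : ℝ) ≤ z := by exact_mod_cast hz
  have hz0 : (0 : ℝ) < z := by linarith
  have htel : ∑ p ∈ P, 1 / ((p : ℝ) * (p - 1)) ≤ 1 / z := by
    refine le_trans ?_ (tel_prime z (by omega) Z)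
    apply sum_le_sum_of_subset_of_nonneg
    · intro p hp
      obtain ⟨h1, h2, h3, -⟩ := hPs p hp
      rw [mem_filter, mem_Ioc]
      exact ⟨⟨h2, h3⟩, h1⟩
    · intro p hp _
      rw [mem_filter, mem_Ioc] at hp
      have : (1 : ℝ) ≤ p := by exact_mod_cast hp.2.one_le
      apply div_nonneg zero_le_one
      apply mul_nonneg <;> linarith
  have hwt : ∑ p ∈ P, Pool.Agent.N123.QU.wt 1 p ≤ 1 / z := by
    refine le_trans (le_of_eq ?_) htel
    apply sum_congr rfl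
    intro p hp
    obtain ⟨h1, -, -, -⟩ := hPs p hp
    unfold Pool.Agent.N123.QU.wt
    rw [if_neg, add_zero]
    intro h2
    have h3 := Int.le_of_dvd one_pos h2
    have h4 := h1.two_le
    omega
  have hwt0 : 0 ≤ ∑ p ∈ P, Pool.Agent.N123.QU.wt 1 p := sum_nonneg fun p hp => wt_nonneg 1 (hPs p hp).1
  have hcard : (P.card : ℝ) ≤ Z := by
    have : P.card ≤ Z := by
      rw [hP]
      refine (card_filter_le _ _).trans ?_
      rw [Nat.card_Ioc]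
      omega
    exact_mod_cast this
  have hsec := secondG (fun p m => xg 1 3 1 1 p (W * m)) (Pool.Agent.N123.QU.wt 1) (fun p b => by
      rw [← xg_mod 1 3 1 1 p (W * (b % p)), ← xg_mod 1 3 1 1 p (W * b)]
      congr 1
      exact (Nat.ModEq.mul_left W (Nat.mod_modEq b p))) P (fun p hp => (hPs p hp).1)
    (fun p hp => wt_nonneg 1 (hPs p hp).1)
    (fun p hp b => xg_abs 1 3 (Or.inl rfl) 1 (hPs p hp).1 (not_dvd_two (by
      have := (hPs p hp).2.1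
      omega)) _)
    (fun p hp => by
      obtain ⟨h1, h2, h3, h4⟩ := hPs p hp
      rw [perm_sum h1 h4 (fun h => xg 1 3 1 1 p h) (fun b => xg_mod 1 3 1 1 p b)]
      exact avg_xg 1 3 (Or.inl rfl) 1 h1 (not_dvd_two (by omega))) B
  have hB0 : (0 : ℝ) ≤ B := Nat.cast_nonneg _
  calc (((Icc 1 B).filter (fun m : ℕ => δ < |∑ p ∈ P, xg 1 3 1 1 p (W * m)|)).card : ℝ) * δ ^ 2
      = ∑ m ∈ (Icc 1 B).filter (fun m : ℕ => δ < |∑ p ∈ P, xg 1 3 1 1 p (W * m)|), δ ^ 2 := by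
        rw [sum_const, nsmul_eq_mul]
    _ ≤ ∑ m ∈ (Icc 1 B).filter (fun m : ℕ => δ < |∑ p ∈ P, xg 1 3 1 1 p (W * m)|),
          (∑ p ∈ P, xg 1 3 1 1 p (W * m)) ^ 2 := by
        refine sum_le_sum fun m hm => ?_
        rw [← sq_abs (∑ p ∈ P, xg 1 3 1 1 p (W * m))]
        exact pow_le_pow_left₀ hδ.le (mem_filter.1 hm).2.le 2
    _ ≤ ∑ m ∈ Icc 1 B, (∑ p ∈ P, xg 1 3 1 1 p (W * m)) ^ 2 :=
        sum_le_sum_of_subset_of_nonneg (filter_subset _ _) fun m _ _ => sq_nonneg _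
    _ ≤ ((B : ℝ) + 1) * (∑ p ∈ P, Pool.Agent.N123.QU.wt 1 p) ^ 2 + 5 * (P.card : ℝ) ^ 2 +
          2 * B * ∑ p ∈ P, 1 / ((p : ℝ) * (p - 1)) := hsec
    _ ≤ ((B : ℝ) + 1) * (1 / z) ^ 2 + 5 * (Z : ℝ) ^ 2 + 2 * B * (1 / z) := by
        gcongr
    _ ≤ 4 * ((B : ℝ) + 1) / z + 5 * (Z : ℝ) ^ 2 := by
        have h1 : (1 / (z : ℝ)) ^ 2 ≤ 1 / z := by
          have h2 : 1 / (z : ℝ) ≤ 1 := by
            rw [div_le_one hz0]
            linarith
          have h3 : 0 ≤ 1 / (z : ℝ) := by positivity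
          nlinarith
        have h2 : 4 * ((B : ℝ) + 1) / z = 4 * ((B : ℝ) + 1) * (1 / z) := by ring
        have h3 : 0 ≤ 1 / (z : ℝ) := by positivity
        have h4 : ((B : ℝ) + 1) * (1 / (z : ℝ)) ^ 2 ≤ ((B : ℝ) + 1) * (1 / z) :=
          mul_le_mul_of_nonneg_left h1 (by positivity)
        rw [h2]
        nlinarith

/-- the truncated product at `0` -/
lemma Sqg_zero (z : ℕ) : Sqg 1 3 1 1 0 z = CC (z + 1) := by
  rw [← Sz_one, Sz_prod]
  unfold Sqg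
  have e1 : (Ioc 0 z).filter Nat.Prime = pz z := by
    ext p
    rw [mem_pz, mem_filter, mem_Ioc]
    constructor
    · rintro ⟨⟨h1, h2⟩, h3⟩
      exact ⟨h2, h3⟩
    · rintro ⟨h1, h2⟩
      exact ⟨⟨h2.pos, h1⟩, h2⟩
  rw [e1]
  apply prod_congr rfl
  intro p _
  have e2 : ((range p).filter (fun m : ℕ => (p : ℤ) ∣ Vg 1 3 1 1 0 m)).card = nuB (QS (-1) (-3) 1) p := by
    unfold nuB QS Vg
    congr 1
    ext m
    have e : (1 : ℤ) * ((1 * (m : ℤ) ^ 2 + 3 * m) - (1 * ((0 : ℕ) : ℤ) ^ 2 + 3 * ((0 : ℕ) : ℤ))) + 1 =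
        1 - (-1 * (m : ℤ) ^ 2 + -3 * (m : ℤ)) := by
      push_cast
      ring
    simp only [mem_filter]
    rw [e]
  rw [e2]

lemma wg_two (h : ℕ) : ((range 2).filter (fun m : ℕ => ((2 : ℕ) : ℤ) ∣ Vg 1 3 1 1 h m)).card = 0 := by
  rw [card_eq_zero, filter_eq_empty_iff]
  intro m _
  unfold Vg
  intro hd
  have h1 : Even ((m : ℤ) * (m + 1)) := Int.even_mul_succ_self _
  have h2 : Even ((h : ℤ) * (h + 1)) := Int.even_mul_succ_self _
  obtain ⟨r, hr⟩ := h1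
  obtain ⟨s, hs⟩ := h2
  obtain ⟨t, ht⟩ := hd
  push_cast at ht
  have e1 : (m : ℤ) ^ 2 = r + r - m := by linarith [hr, show (m : ℤ) * (m + 1) = m ^ 2 + m by ring]
  have e2 : (h : ℤ) ^ 2 = s + s - h := by linarith [hs, show (h : ℤ) * (h + 1) = h ^ 2 + h by ring]
  rw [e1, e2] at ht
  omega

lemma Sqg_mult {z W h : ℕ} (hW : ∀ p : ℕ, p.Prime → p ≤ z → p ≠ 2 → p ∣ W) (hh : W ∣ h) :
    Sqg 1 3 1 1 h z = CC (z + 1) := by
  rw [← Sqg_zero]
  unfold Sqg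
  apply prod_congr rfl
  intro p hp
  rw [mem_filter, mem_Ioc] at hp
  have : NeZero p := ⟨hp.2.ne_zero⟩
  by_cases hp2 : p = 2
  · subst hp2
    rw [wg_two, wg_two]
  have h1 : h % p = 0 := Nat.mod_eq_zero_of_dvd ((hW p hp.2 hp.1.2 hp2).trans hh)
  have h2 : ((range p).filter (fun m : ℕ => (p : ℤ) ∣ Vg 1 3 1 1 h m)).card =
      ((range p).filter (fun m : ℕ => (p : ℤ) ∣ Vg 1 3 1 1 0 m)).card := by
    have h3 := wg_mod 1 3 1 1 h p
    rw [h1] at h3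
    exact h3.symm
  rw [h2]

/-- the truncated product at `Z` -/
lemma Sqg_near {z Z W h : ℕ} (hz : 2 ≤ z) (hZ : z ≤ Z) (hW1 : 1 ≤ W) (hW : NearO z W) (hh : W ∣ h) {δ : ℝ}
    (hδ1 : δ + 6 / z ≤ 1)
    (h1 : |∑ p ∈ (Ioc z Z).filter (fun p => p.Prime ∧ ¬ p ∣ W), xg 1 3 1 1 p h| ≤ δ) :
    |Sqg 1 3 1 1 h Z - CC (z + 1)| ≤ |CC (z + 1)| * (2 * (δ + 6 / z)) := by
  have hzr : (2 : ℝ) ≤ z := by exact_mod_cast hz
  have hz0 : (0 : ℝ) < z := by linarith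
  obtain ⟨P, hP⟩ : ∃ P, P = (Ioc z Z).filter Nat.Prime := ⟨_, rfl⟩
  have hPs : ∀ p ∈ P, p.Prime ∧ z < p ∧ p ≤ Z := by
    intro p hp
    rw [hP, mem_filter, mem_Ioc] at hp
    exact ⟨hp.2, hp.1.1, hp.1.2⟩
  have hx : ∀ p ∈ P, |xg 1 3 1 1 p h| ≤ 1 / 2 := fun p hp =>
    xg_half 1 3 (Or.inl rfl) 1 (hPs p hp).1 (not_dvd_two (by have := (hPs p hp).2.1; omega)) h
  have hxa : ∀ p ∈ P, |xg 1 3 1 1 p h| ≤ 1 / ((p : ℝ) - 1) := fun p hp =>
    xg_abs 1 3 (Or.inl rfl) 1 (hPs p hp).1 (not_dvd_two (by have := (hPs p hp).2.1; omega)) h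
  have hpr : ∀ p ∈ P, (3 : ℝ) ≤ p := fun p hp => by exact_mod_cast (by have := (hPs p hp).2.1; omega : 3 ≤ p)
  have hsq : ∑ p ∈ P, xg 1 3 1 1 p h ^ 2 ≤ 2 / z := by
    calc ∑ p ∈ P, xg 1 3 1 1 p h ^ 2 ≤ ∑ p ∈ P, 2 * (1 / ((p : ℝ) * (p - 1))) := by
          refine sum_le_sum fun p hp => ?_
          have h3 := hpr p hp
          have h4 : (0 : ℝ) < (p : ℝ) - 1 := by linarith
          have hp0 : (0 : ℝ) < p := by linarith
          calc xg 1 3 1 1 p h ^ 2 = |xg 1 3 1 1 p h| ^ 2 := (sq_abs _).symm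
            _ ≤ (1 / ((p : ℝ) - 1)) ^ 2 := pow_le_pow_left₀ (abs_nonneg _) (hxa p hp) 2
            _ = 1 / ((p : ℝ) - 1) ^ 2 := by rw [one_div_pow]
            _ ≤ 2 * (1 / ((p : ℝ) * (p - 1))) := by
                rw [mul_one_div, div_le_div_iff₀ (by positivity) (by positivity)]
                nlinarith
      _ = 2 * ∑ p ∈ P, 1 / ((p : ℝ) * (p - 1)) := by rw [mul_sum]
      _ ≤ 2 * (1 / z) := by
          apply mul_le_mul_of_nonneg_left _ (by norm_num)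
          rw [hP]
          exact tel_prime z (by omega) Z
      _ = 2 / z := by ring
  have hsplit : ∑ p ∈ P, xg 1 3 1 1 p h = ∑ p ∈ (Ioc z Z).filter (fun p => p.Prime ∧ ¬ p ∣ W), xg 1 3 1 1 p h +
      ∑ p ∈ (Ioc z Z).filter (fun p => p.Prime ∧ p ∣ W), xg 1 3 1 1 p h := by
    rw [hP, ← sum_filter_add_sum_filter_not ((Ioc z Z).filter Nat.Prime) (fun p => ¬ p ∣ W), filter_filter, filter_filter]
    simp only [not_not]
  have hdiv : |∑ p ∈ (Ioc z Z).filter (fun p => p.Prime ∧ p ∣ W), xg 1 3 1 1 p h| ≤ 2 / z := by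
    refine (abs_sum_le_sum_abs _ _).trans ?_
    calc ∑ p ∈ (Ioc z Z).filter (fun p => p.Prime ∧ p ∣ W), |xg 1 3 1 1 p h|
        ≤ ∑ p ∈ (Ioc z Z).filter (fun p => p.Prime ∧ p ∣ W), 2 * (1 / (p : ℝ)) := by
          apply sum_le_sum
          intro p hp
          rw [mem_filter, mem_Ioc] at hp
          have hpP : p ∈ P := by
            rw [hP, mem_filter, mem_Ioc]
            exact ⟨hp.1, hp.2.1⟩
          refine (hxa p hpP).trans ?_
          have h3 := hpr p hpP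
          rw [mul_one_div, div_le_div_iff₀ (by linarith) (by linarith)]
          linarith
      _ = 2 * ∑ p ∈ (Ioc z Z).filter (fun p => p.Prime ∧ p ∣ W), 1 / (p : ℝ) := by rw [mul_sum]
      _ ≤ 2 * (1 / z) := by
          apply mul_le_mul_of_nonneg_left _ (by norm_num)
          refine le_trans ?_ hW.2
          apply sum_le_sum_of_subset_of_nonneg
          · intro p hp
            rw [mem_filter, mem_Ioc] at hp
            rw [mem_filter, Nat.mem_primeFactors]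
            exact ⟨⟨hp.2.1, hp.2.2, by omega⟩, hp.1.1⟩
          · intro p _ _
            positivity
      _ = 2 / z := by ring
  have hu : |∑ p ∈ P, xg 1 3 1 1 p h| + 2 * ∑ p ∈ P, xg 1 3 1 1 p h ^ 2 ≤ δ + 6 / z := by
    rw [hsplit]
    have h2 := abs_add_le (∑ p ∈ (Ioc z Z).filter (fun p => p.Prime ∧ ¬ p ∣ W), xg 1 3 1 1 p h)
      (∑ p ∈ (Ioc z Z).filter (fun p => p.Prime ∧ p ∣ W), xg 1 3 1 1 p h)
    have h3 : (6 : ℝ) / z = 2 / z + 2 * (2 / z) := by ring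
    rw [h3]
    linarith
  have hR := ratio P (fun p => xg 1 3 1 1 p h) hx (δ + 6 / z) hδ1 hu
  rw [Sqg_split 1 3 1 1 hZ h, ← hP, Sqg_mult hW.1 hh]
  have h5 : CC (z + 1) * ∏ p ∈ P, (1 + xg 1 3 1 1 p h) - CC (z + 1) =
      CC (z + 1) * (∏ p ∈ P, (1 + xg 1 3 1 1 p h) - 1) := by ring
  rw [h5, abs_mul]
  exact mul_le_mul_of_nonneg_left hR (abs_nonneg _)

/-- the number of the `1 ≤ k ≤ M` with `k² + 3 k + 1 - (h² + 3 h)` prime -/
def tcount (h M : ℕ) : ℕ :=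
  ((Icc 1 M).filter (fun k : ℕ => ((k : ℤ) ^ 2 + 3 * k + (1 - ((h : ℤ) ^ 2 + 3 * h))).toNat.Prime)).card

lemma tcount_eq (h M : ℕ) : cntg 1 3 1 1 h M = tcount h M := by
  unfold cntg tcount
  congr 1
  apply filter_congr
  intro m _
  unfold Vg
  have e : (1 : ℤ) * ((1 * (m : ℤ) ^ 2 + 3 * m) - (1 * (h : ℤ) ^ 2 + 3 * h)) + 1 =
      (m : ℤ) ^ 2 + 3 * m + (1 - ((h : ℤ) ^ 2 + 3 * h)) := by ring
  rw [e]

/-- the conclusion -/
def GoodH (C ε : ℝ) (K H h : ℕ) : Prop :=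
  ∀ M : ℕ, M ≤ K * H → |(tcount h M : ℝ) - C / 2 * (max ((M : ℝ) - h) 0 / Real.log H)| ≤ ε * (H / Real.log H)

open Classical in
theorem thin_main (C : ℝ) (hC : Tendsto CC atTop (𝓝 C)) (ε : ℝ) (hε : 0 < ε) (K : ℕ) (hK : 1 ≤ K) :
    ∃ z₁ : ℕ, ∀ z : ℕ, z₁ ≤ z → ∀ W : ℕ, 1 ≤ W → NearO z W → ∃ H₀ : ℕ, ∀ H : ℕ, H₀ ≤ H →
      (((Icc 1 H).filter (fun h : ℕ => W ∣ h ∧ ¬ GoodH C ε K H h)).card : ℝ) ≤ ε * (H / W) := by
  obtain ⟨hC1, hC2⟩ := const_bds C hC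
  have hK1 : (1 : ℝ) ≤ K := by exact_mod_cast hK
  have hK0 : (0 : ℝ) < K := by linarith
  -- the accuracies
  obtain ⟨e, he⟩ : ∃ e : ℝ, e = min ε 1 := ⟨_, rfl⟩
  have he0 : 0 < e := by
    rw [he]
    exact lt_min hε one_pos
  have he1 : e ≤ ε := by rw [he]; exact min_le_left _ _
  have he3 : e ≤ 1 := by rw [he]; exact min_le_right _ _
  obtain ⟨μ, hμ⟩ : ∃ μ : ℝ, μ = e / (16 * K) := ⟨_, rfl⟩
  have hμ0 : 0 < μ := by rw [hμ]; positivity
  have hμK : 16 * (μ * K) = e := by rw [hμ]; field_simp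
  have hμe : 16 * μ ≤ e := by
    have : μ * 1 ≤ μ * K := mul_le_mul_of_nonneg_left hK1 hμ0.le
    linarith
  obtain ⟨δ, hδ⟩ : ∃ δ : ℝ, δ = μ / 32 := ⟨_, rfl⟩
  have hδ0 : 0 < δ := by rw [hδ]; positivity
  obtain ⟨δ₁, hδ₁⟩ : ∃ δ₁ : ℝ, δ₁ = min μ (ε / 4) := ⟨_, rfl⟩
  have hδ₁0 : 0 < δ₁ := by rw [hδ₁]; exact lt_min hμ0 (by positivity)
  have hδ₁a : δ₁ ≤ μ := by rw [hδ₁]; exact min_le_left _ _
  have hδ₁b : δ₁ ≤ ε / 4 := by rw [hδ₁]; exact min_le_right _ _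
  have hCC : Tendsto (fun N : ℕ => CC (N + 1)) atTop (𝓝 C) := hC.comp (tendsto_add_atTop_nat 1)
  obtain ⟨z₂, hz₂⟩ := Metric.tendsto_atTop.1 hCC (μ / 2) (by positivity)
  obtain ⟨z₃, hz₃⟩ : ∃ z₃ : ℕ, z₃ = ⌈192 / μ⌉₊ + ⌈64 / (ε * δ ^ 2)⌉₊ := ⟨_, rfl⟩
  have hz₃a : 192 / μ ≤ z₃ := by
    rw [hz₃]
    push_cast
    have := Nat.le_ceil (192 / μ)
    have h2 : (0 : ℝ) ≤ ⌈64 / (ε * δ ^ 2)⌉₊ := Nat.cast_nonneg _
    linarith
  have hz₃b : 64 / (ε * δ ^ 2) ≤ z₃ := by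
    rw [hz₃]
    push_cast
    have := Nat.le_ceil (64 / (ε * δ ^ 2))
    have h2 : (0 : ℝ) ≤ ⌈192 / μ⌉₊ := Nat.cast_nonneg _
    linarith
  refine ⟨z₂ + z₃ + 2, fun z hz W hW1 hnear => ?_⟩
  have hWr : (1 : ℝ) ≤ W := by exact_mod_cast hW1
  have hW0 : (0 : ℝ) < W := by linarith
  obtain ⟨κ', -, hfin⟩ := finalGU 1 3 le_rfl 1 (ε / (4 * W)) (by positivity)
  obtain ⟨Z0, hZ0⟩ := hfin μ K hμ0
  obtain ⟨H1, hH1⟩ := hZ0 1
  obtain ⟨Z, hZd⟩ : ∃ Z, Z = max Z0 z := ⟨_, rfl⟩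
  have hZa : Z0 ≤ Z := by rw [hZd]; exact le_max_left _ _
  have hZb : z ≤ Z := by rw [hZd]; exact le_max_right _ _
  obtain ⟨H2, hH2⟩ := Pool.Agent.N67.QV.t_LSUM 1 3 1 le_rfl δ₁ K hδ₁0
  obtain ⟨H4, hH4⟩ := Filter.eventually_atTop.1 (log_tendsto.eventually_ge_atTop ((Z : ℝ) + 1))
  obtain ⟨H5, hH5⟩ := exists_nat_ge ((W : ℝ) + 40 * W * (Z : ℝ) ^ 2 / (ε * δ ^ 2))
  refine ⟨H1 + H2 + H4 + H5 + 3, fun H hH => ?_⟩
  have hHr : (3 : ℝ) ≤ H := by exact_mod_cast (by omega : 3 ≤ H)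
  have hH0 : (0 : ℝ) < H := by linarith
  obtain ⟨l, hl⟩ : ∃ l, l = Real.log (H : ℝ) := ⟨_, rfl⟩
  have hlZ := hH4 H (by omega)
  rw [← hl] at hlZ
  have hZ0r : (0 : ℝ) ≤ Z := Nat.cast_nonneg _
  have hl1 : 1 ≤ l := by linarith
  have hl0 : 0 < l := by linarith
  have hHl : 0 < (H : ℝ) / l := by positivity
  have hH5' : (W : ℝ) + 40 * W * (Z : ℝ) ^ 2 / (ε * δ ^ 2) ≤ H := hH5.trans (by exact_mod_cast (by omega : H5 ≤ H))
  have hpW : 0 ≤ 40 * (W : ℝ) * (Z : ℝ) ^ 2 / (ε * δ ^ 2) := by positivity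
  -- the first exceptional set
  have hE1 := hH1 H (by omega) Z 1 1 (by
      refine ⟨one_ne_zero, fun s _ => ?_⟩
      have : (1 : ℤ).natAbs.primeFactors = ∅ := by simp
      rw [this]
      simp) (by
      refine ⟨fun p hp h1 _ _ => ?_, fun _ h2 => by norm_num at h2⟩
      have := Int.le_of_dvd one_pos h1
      have := hp.two_le
      omega) (Or.inl rfl) (by
      have h1 : 1 ≤ K * H ^ 2 := Nat.succ_le_of_lt (Nat.mul_pos (by omega) (Nat.pow_pos (by omega)))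
      simpa using h1) hZa (by
      rw [pow_one, ← hl]
      linarith)
  obtain ⟨E1, hE1d⟩ : ∃ E1, E1 = (Icc 1 H).filter (fun h : ℕ => ¬ (κ' ≤ Sqg 1 3 1 1 h Z ∧ ∀ M : ℕ, M ≤ K * H →
      |(cntg 1 3 1 1 h M : ℝ) - Sqg 1 3 1 1 h Z * ∑ m ∈ (Icc 1 M).filter (fun m : ℕ => 2 ≤ Vg 1 3 1 1 h m),
        1 / Real.log ((Vg 1 3 1 1 h m : ℤ) : ℝ)| ≤ μ * (H / Real.log H))) := ⟨_, rfl⟩
  rw [← hE1d] at hE1
  -- the second exceptional set: small `h`
  obtain ⟨E2, hE2d⟩ : ∃ E2, E2 = (Icc 1 (H / W)).filter (fun m : ℕ => ((W * m : ℕ) : ℝ) < δ₁ * H) := ⟨_, rfl⟩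
  have hE2 : (#E2 : ℝ) ≤ ε / 4 * (H / W) := by
    have h1 : E2 ⊆ Icc 1 ⌊δ₁ * H / W⌋₊ := by
      intro m hm
      rw [hE2d, mem_filter, mem_Icc] at hm
      rw [mem_Icc]
      refine ⟨hm.1.1, Nat.le_floor ?_⟩
      rw [le_div_iff₀ hW0]
      have := hm.2
      push_cast at this
      linarith
    have h2 : #E2 ≤ ⌊δ₁ * H / W⌋₊ := by
      refine (card_le_card h1).trans ?_
      rw [Nat.card_Icc]
      omega
    calc (#E2 : ℝ) ≤ ⌊δ₁ * H / W⌋₊ := by exact_mod_cast h2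
      _ ≤ δ₁ * H / W := Nat.floor_le (by positivity)
      _ ≤ ε / 4 * H / W := by gcongr
      _ = ε / 4 * (H / W) := by ring
  -- the third exceptional set
  obtain ⟨E3, hE3d⟩ : ∃ E3, E3 = (Icc 1 (H / W)).filter (fun m : ℕ => δ < |∑ p ∈ (Ioc z Z).filter
      (fun p => p.Prime ∧ ¬ p ∣ W), xg 1 3 1 1 p (W * m)|) := ⟨_, rfl⟩
  have hz2 : 2 ≤ z := by omega
  have hzr : (z₃ : ℝ) ≤ z := by exact_mod_cast (by omega : z₃ ≤ z)
  have hz0 : (0 : ℝ) < z := by exact_mod_cast (by omega : 0 < z)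
  have hHW : 1 ≤ (H : ℝ) / W := by
    rw [le_div_iff₀ hW0]
    linarith
  have hE3 : (#E3 : ℝ) ≤ ε / 4 * (H / W) := by
    have h1 := thin_var (W := W) hz2 hZb (H / W) δ hδ0
    rw [← hE3d] at h1
    have h2 : ((H / W : ℕ) : ℝ) ≤ H / W := Nat.cast_div_le
    have h3 : 4 * (((H / W : ℕ) : ℝ) + 1) / z ≤ ε * δ ^ 2 / 8 * (H / W) := by
      rw [div_le_iff₀ hz0]
      have h4 : 64 / (ε * δ ^ 2) ≤ z := hz₃b.trans hzr
      rw [div_le_iff₀ (by positivity)] at h4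
      have h5 : ε * δ ^ 2 / 8 * ((H : ℝ) / W) * z = (H / W) / 8 * (z * (ε * δ ^ 2)) := by ring
      rw [h5]
      have h6 : (H : ℝ) / W / 8 * 64 ≤ (H / W) / 8 * (z * (ε * δ ^ 2)) :=
        mul_le_mul_of_nonneg_left h4 (by positivity)
      linarith
    have h7 : 5 * (Z : ℝ) ^ 2 ≤ ε * δ ^ 2 / 8 * (H / W) := by
      have h8 : 40 * (W : ℝ) * (Z : ℝ) ^ 2 / (ε * δ ^ 2) ≤ H := by linarith
      rw [div_le_iff₀ (by positivity)] at h8
      have h9 : ε * δ ^ 2 / 8 * ((H : ℝ) / W) = (H * (ε * δ ^ 2)) / (8 * W) := by field_simp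
      rw [h9, le_div_iff₀ (by positivity)]
      linarith
    have h10 : (#E3 : ℝ) * δ ^ 2 ≤ (ε / 4 * (H / W)) * δ ^ 2 := by
      have : (ε / 4 * ((H : ℝ) / W)) * δ ^ 2 = ε * δ ^ 2 / 8 * (H / W) + ε * δ ^ 2 / 8 * (H / W) := by ring
      rw [this]
      linarith
    exact le_of_mul_le_mul_right h10 (by positivity)
  -- the bad `h`
  have hsub : (Icc 1 H).filter (fun h : ℕ => W ∣ h ∧ ¬ GoodH C ε K H h) ⊆
      E1 ∪ (E2 ∪ E3).image (fun m => W * m) := by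
    intro h hh
    rw [mem_filter, mem_Icc] at hh
    obtain ⟨⟨hh1, hhH⟩, hWh, hbad⟩ := hh
    by_contra hcon
    rw [mem_union, not_or, mem_image] at hcon
    obtain ⟨hcE1, hcE⟩ := hcon
    obtain ⟨m, rfl⟩ := hWh
    have hm1 : 1 ≤ m := by
      rcases Nat.eq_zero_or_pos m with h0 | h0
      · rw [h0, mul_zero] at hh1
        omega
      · exact h0
    have hmH : m ≤ H / W := (Nat.le_div_iff_mul_le (by omega)).2 (by rw [mul_comm]; exact hhH)
    have hm2 : m ∉ E2 := fun h1 => hcE ⟨m, mem_union_left _ h1, rfl⟩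
    have hm3 : m ∉ E3 := fun h1 => hcE ⟨m, mem_union_right _ h1, rfl⟩
    rw [hE2d, mem_filter, mem_Icc, not_and, not_lt] at hm2
    rw [hE3d, mem_filter, mem_Icc, not_and, not_lt] at hm3
    have hm2' := hm2 ⟨hm1, hmH⟩
    have hm3' := hm3 ⟨hm1, hmH⟩
    rw [hE1d, mem_filter, mem_Icc, not_and, not_not] at hcE1
    obtain ⟨-, hcnt⟩ := hcE1 ⟨hh1, hhH⟩
    apply hbad
    obtain ⟨h, hhd⟩ : ∃ h, h = W * m := ⟨_, rfl⟩
    have hWh : W ∣ h := ⟨m, hhd⟩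
    rw [← hhd] at hm2' hm3' hcnt hhH hh1 ⊢
    -- the product
    have h6z : 6 / (z : ℝ) ≤ μ / 32 := by
      rw [div_le_div_iff₀ hz0 (by norm_num)]
      have h1 : 192 / μ ≤ z := hz₃a.trans hzr
      rw [div_le_iff₀ hμ0] at h1
      linarith
    have hμ1 : μ ≤ 1 := by linarith
    have hS1 := Sqg_near hz2 hZb hW1 hnear hWh (δ := δ) (by rw [hδ]; linarith) hm3'
    have hCz : |CC (z + 1) - C| ≤ μ / 2 := by
      have := hz₂ z (by omega)
      rw [Real.dist_eq] at this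
      exact this.le
    have hS : |Sqg 1 3 1 1 h Z - C| ≤ μ := by
      have h1 : |CC (z + 1)| ≤ 4 := by
        have h2 := abs_le.1 hCz
        rw [abs_le]
        constructor <;> linarith
      have h3 : |CC (z + 1)| * (2 * (δ + 6 / z)) ≤ μ / 2 := by
        calc |CC (z + 1)| * (2 * (δ + 6 / z)) ≤ 4 * (2 * (μ / 32 + μ / 32)) := by
              apply mul_le_mul h1 _ (by positivity) (by norm_num)
              rw [hδ]
              linarith
          _ = μ / 2 := by ring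
      have h4 : Sqg 1 3 1 1 h Z - C = (Sqg 1 3 1 1 h Z - CC (z + 1)) + (CC (z + 1) - C) := by ring
      rw [h4]
      refine (abs_add_le _ _).trans ?_
      linarith
    -- the comparison
    intro M hM
    rw [← hl]
    have h1 := hcnt M hM
    have h2 := hH2 H (by omega) h hm2' hhH M hM
    rw [tcount_eq] at h1
    rw [← hl] at h1 h2
    obtain ⟨s, hs⟩ : ∃ s, s = ∑ m ∈ (Icc 1 M).filter (fun m : ℕ => 2 ≤ Vg 1 3 1 1 h m),
      1 / Real.log ((Vg 1 3 1 1 h m : ℤ) : ℝ) := ⟨_, rfl⟩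
    rw [← hs] at h1 h2
    obtain ⟨S, hSd⟩ : ∃ S, S = Sqg 1 3 1 1 h Z := ⟨_, rfl⟩
    rw [← hSd] at h1 hS
    obtain ⟨D, hD⟩ : ∃ D, D = max ((M : ℝ) - h) 0 := ⟨_, rfl⟩
    rw [← hD] at h2 ⊢
    have hD0 : 0 ≤ D := by rw [hD]; exact le_max_right _ _
    have hDK : D ≤ K * H := by
      rw [hD]
      apply max_le
      · have h3 : (M : ℝ) ≤ K * H := by exact_mod_cast hM
        have h4 : (0 : ℝ) ≤ h := Nat.cast_nonneg _
        linarith
      · positivity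
    have h3 : |s| ≤ K * (H / l) := by
      have h4 : s = (s - D / (2 * l)) + D / (2 * l) := by ring
      rw [h4]
      refine (abs_add_le _ _).trans ?_
      rw [abs_of_nonneg (show 0 ≤ D / (2 * l) by positivity)]
      have h5 : D / (2 * l) ≤ K / 2 * (H / l) := by
        calc D / (2 * l) ≤ K * H / (2 * l) := by gcongr
          _ = K / 2 * (H / l) := by field_simp
      have h6 : δ₁ * (H / l) ≤ K / 2 * (H / l) := by
        apply mul_le_mul_of_nonneg_right _ hHl.le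
        linarith
      linarith
    have a2 : |(S - C) * s| ≤ e / 16 * (H / l) := by
      rw [abs_mul]
      calc |S - C| * |s| ≤ μ * (K * (H / l)) := mul_le_mul hS h3 (abs_nonneg _) hμ0.le
        _ = e / 16 * (H / l) := by rw [← hμK]; ring
    have a3 : |C * (s - D / (2 * l))| ≤ 3.56 * (μ * (H / l)) := by
      rw [abs_mul, abs_of_pos (by linarith : 0 < C)]
      apply mul_le_mul hC2.le _ (abs_nonneg _) (by norm_num)
      refine h2.trans ?_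
      exact mul_le_mul_of_nonneg_right hδ₁a hHl.le
    have e1 : (tcount h M : ℝ) - C / 2 * (D / l) = ((tcount h M : ℝ) - S * s) + (S - C) * s +
        C * (s - D / (2 * l)) := by
      field_simp
      ring
    rw [e1]
    have a5 := abs_add_le (((tcount h M : ℝ) - S * s) + (S - C) * s) (C * (s - D / (2 * l)))
    have a6 := abs_add_le ((tcount h M : ℝ) - S * s) ((S - C) * s)
    have a8 : 16 * (μ * ((H : ℝ) / l)) ≤ e * (H / l) := by
      rw [← mul_assoc]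
      exact mul_le_mul_of_nonneg_right hμe hHl.le
    have a9 : 0 < μ * ((H : ℝ) / l) := by positivity
    have a10 : e * ((H : ℝ) / l) ≤ ε * (H / l) := mul_le_mul_of_nonneg_right he1 hHl.le
    linarith
  have hcard : (((Icc 1 H).filter (fun h : ℕ => W ∣ h ∧ ¬ GoodH C ε K H h)).card : ℝ) ≤ #E1 + (#E2 + #E3) := by
    have h1 := (card_le_card hsub).trans ((card_union_le _ _).trans
      (Nat.add_le_add_left (card_image_le.trans (card_union_le _ _)) _))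
    exact_mod_cast h1
  refine hcard.trans ?_
  have h1 : ε / (4 * W) * (H : ℝ) = ε / 4 * (H / W) := by field_simp
  rw [h1] at hE1
  have h2 : 0 < ε / 4 * ((H : ℝ) / W) := by positivity
  linarith

/-- the number of the `1 ≤ k ≤ y` with `k² + b k + 1` prime -/
def lcount (b y : ℕ) : ℕ := ((Icc 1 y).filter (fun k : ℕ => (k ^ 2 + b * k + 1).Prime)).card

lemma lcount_eq (h y : ℕ) : tcount h (y + h) = lcount (2 * h + 3) y := by
  unfold tcount lcount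
  symm
  apply card_bij' (fun k _ => k + h) (fun k _ => k - h)
  · intro k hk
    rw [mem_filter, mem_Icc] at hk ⊢
    refine ⟨⟨by omega, by omega⟩, ?_⟩
    have e : (((k + h : ℕ) : ℤ) ^ 2 + 3 * ((k + h : ℕ) : ℤ) + (1 - ((h : ℤ) ^ 2 + 3 * h))) =
        ((k ^ 2 + (2 * h + 3) * k + 1 : ℕ) : ℤ) := by
      push_cast
      ring
    rw [e, Int.toNat_natCast]
    exact hk.2
  · intro k hk
    rw [mem_filter, mem_Icc] at hk ⊢
    obtain ⟨⟨h1, h2⟩, h3⟩ := hk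
    have hkh : h < k := by
      by_contra hcon
      rw [not_lt] at hcon
      have e : (k : ℤ) ^ 2 + 3 * k + (1 - ((h : ℤ) ^ 2 + 3 * h)) ≤ 1 := by
        have h4 : (k : ℤ) ≤ h := by exact_mod_cast hcon
        have h5 : (0 : ℤ) ≤ k := Int.natCast_nonneg k
        nlinarith
      have h6 : ((k : ℤ) ^ 2 + 3 * k + (1 - ((h : ℤ) ^ 2 + 3 * h))).toNat ≤ 1 := by
        rw [Int.toNat_le]
        exact e
      have := h3.two_le
      omega
    refine ⟨⟨by omega, by omega⟩, ?_⟩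
    obtain ⟨j, rfl⟩ : ∃ j, k = j + h := ⟨k - h, by omega⟩
    rw [Nat.add_sub_cancel]
    have e : (((j + h : ℕ) : ℤ) ^ 2 + 3 * ((j + h : ℕ) : ℤ) + (1 - ((h : ℤ) ^ 2 + 3 * h))) =
        ((j ^ 2 + (2 * h + 3) * j + 1 : ℕ) : ℤ) := by
      push_cast
      ring
    rw [e, Int.toNat_natCast] at h3
    exact h3
  · intro k _
    simp
  · intro k hk
    rw [mem_filter, mem_Icc] at hk
    obtain ⟨⟨h1, h2⟩, h3⟩ := hk
    have hkh : h < k := by
      by_contra hcon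
      rw [not_lt] at hcon
      have e : (k : ℤ) ^ 2 + 3 * k + (1 - ((h : ℤ) ^ 2 + 3 * h)) ≤ 1 := by
        have h4 : (k : ℤ) ≤ h := by exact_mod_cast hcon
        have h5 : (0 : ℤ) ≤ k := Int.natCast_nonneg k
        nlinarith
      have h6 : ((k : ℤ) ^ 2 + 3 * k + (1 - ((h : ℤ) ^ 2 + 3 * h))).toNat ≤ 1 := by
        rw [Int.toNat_le]
        exact e
      have := h3.two_le
      omega
    omega

/-- the conclusion -/
def GoodB (C ε : ℝ) (K H b : ℕ) : Prop :=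
  (∀ y : ℕ, y ≤ K * H → |(lcount b y : ℝ) - C / 2 * (y / Real.log H)| ≤ ε * (H / Real.log H)) ∧
  ∀ y : ℕ, y ≤ K * H → H ≤ K * y →
    1.77 * (Nat.primeCounting y : ℝ) ≤ lcount b y ∧ (lcount b y : ℝ) ≤ 1.78 * Nat.primeCounting y

open Classical in
/-- **Changing the linear coefficient.** -/
theorem lin_main (C : ℝ) (hC : Tendsto CC atTop (𝓝 C)) (ε : ℝ) (hε : 0 < ε) (K : ℕ) (hK : 1 ≤ K) :
    ∃ z₁ : ℕ, ∀ z : ℕ, z₁ ≤ z → ∀ W : ℕ, 1 ≤ W → Near z W 1 → ∃ H₀ : ℕ, ∀ H : ℕ, H₀ ≤ H →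
      (((Icc 1 H).filter (fun b : ℕ => b ≡ 3 [MOD W] ∧ ¬ GoodB C ε K H b)).card : ℝ) ≤ ε * (H / W) := by
  obtain ⟨hC1, hC2⟩ := const_bds C hC
  have hK1 : (1 : ℝ) ≤ K := by exact_mod_cast hK
  have hK0 : (0 : ℝ) < K := by linarith
  -- the accuracies
  obtain ⟨κ, hκ⟩ : ∃ κ : ℝ, κ = min (C / 2 - 1.77) (1.78 - C / 2) := ⟨_, rfl⟩
  have hκ0 : 0 < κ := by
    rw [hκ]
    apply lt_min
    · linarith
    · linarith
  have hκa : 1.77 + κ ≤ C / 2 := by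
    have := min_le_left (C / 2 - 1.77) (1.78 - C / 2)
    rw [← hκ] at this
    linarith
  have hκb : C / 2 + κ ≤ 1.78 := by
    have := min_le_right (C / 2 - 1.77) (1.78 - C / 2)
    rw [← hκ] at this
    linarith
  obtain ⟨e, he⟩ : ∃ e : ℝ, e = min (ε / 4) (κ / (8 * K)) := ⟨_, rfl⟩
  have he0 : 0 < e := by
    rw [he]
    exact lt_min (by positivity) (by positivity)
  have he1 : e ≤ ε / 4 := by rw [he]; exact min_le_left _ _
  have he2 : e * (8 * K) ≤ κ := by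
    have : e ≤ κ / (8 * K) := by rw [he]; exact min_le_right _ _
    rwa [le_div_iff₀ (by positivity)] at this
  obtain ⟨z₁, hz₁⟩ := thin_main C hC e he0 (K + 1) (by omega)
  refine ⟨z₁ + 3, fun z hz W hW1 hnear => ?_⟩
  have hW2 : 2 ∣ W := (hnear.1 2 Nat.prime_two (by omega)).1
  have hW3 : 3 ∣ W := (hnear.1 3 Nat.prime_three (by omega)).1
  obtain ⟨V, rfl⟩ := hW2
  have hV1 : 1 ≤ V := by omega
  have hV3 : 3 ≤ V := by
    have h1 : 3 ∣ V := (Nat.Coprime.dvd_mul_left (by norm_num : Nat.Coprime 3 2)).1 hW3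
    exact Nat.le_of_dvd (by omega) h1
  have hnO : NearO z V := by
    refine ⟨fun p hp hpz hp2 => ?_, ?_⟩
    · have h1 := (hnear.1 p hp hpz).1
      rcases (Nat.Prime.dvd_mul hp).1 h1 with h2 | h2
      · exact absurd ((Nat.prime_dvd_prime_iff_eq hp Nat.prime_two).1 h2) hp2
      · exact h2
    · refine le_trans ?_ hnear.2
      apply sum_le_sum_of_subset_of_nonneg
      · intro p hp
        rw [mem_filter, Nat.mem_primeFactors] at hp ⊢
        exact ⟨⟨hp.1.1, hp.1.2.1.mul_left 2, by omega⟩, hp.2⟩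
      · intro p _ _
        positivity
  obtain ⟨H₁, hH₁⟩ := hz₁ z (by omega) V hV1 hnO
  obtain ⟨H₃, hH₃⟩ := Filter.eventually_atTop.1 (pnt_unif K hK e he0)
  obtain ⟨H₄, hH₄⟩ := exists_nat_ge (4 * (2 * V : ℝ) / ε)
  refine ⟨H₁ + H₃ + H₄ + 3, fun H hH => ?_⟩
  have hHr : (3 : ℝ) ≤ H := by exact_mod_cast (by omega : 3 ≤ H)
  have hH0 : (0 : ℝ) < H := by linarith
  have hVr : (1 : ℝ) ≤ V := by exact_mod_cast hV1
  have hV0 : (0 : ℝ) < V := by linarith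
  obtain ⟨l, hl⟩ : ∃ l, l = Real.log (H : ℝ) := ⟨_, rfl⟩
  have hl0 : 0 < l := by
    rw [hl]
    exact Real.log_pos (by linarith)
  have hHl : 0 < (H : ℝ) / l := by positivity
  have hE := hH₁ H (by omega)
  obtain ⟨E, hEd⟩ : ∃ E, E = (Icc 1 H).filter (fun h : ℕ => V ∣ h ∧ ¬ GoodH C e (K + 1) H h) := ⟨_, rfl⟩
  rw [← hEd] at hE
  have hsub : (Icc 1 H).filter (fun b : ℕ => b ≡ 3 [MOD 2 * V] ∧ ¬ GoodB C ε K H b) ⊆
      insert 3 (E.image (fun h => 2 * h + 3)) := by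
    intro b hb
    rw [mem_filter, mem_Icc] at hb
    obtain ⟨⟨hb1, hbH⟩, hbm, hbad⟩ := hb
    by_contra hcon
    rw [mem_insert, not_or, mem_image] at hcon
    obtain ⟨hb3, hcon⟩ := hcon
    apply hbad
    have hb3' : 3 ≤ b := by
      by_contra hlt
      rw [not_le] at hlt
      have h1 := Nat.mod_eq_of_lt (show b < 2 * V by omega)
      have h2 := Nat.mod_eq_of_lt (show 3 < 2 * V by omega)
      have h3 : b % (2 * V) = 3 % (2 * V) := hbm
      omega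
    obtain ⟨t, ht⟩ : 2 * V ∣ b - 3 := (Nat.modEq_iff_dvd' hb3').1 hbm.symm
    obtain ⟨h, hhd⟩ : ∃ h, h = V * t := ⟨_, rfl⟩
    have hbh : b = 2 * h + 3 := by
      rw [hhd]
      have : b = 2 * V * t + 3 := by omega
      rw [this]
      ring
    have hh1 : 1 ≤ h := by omega
    have hgood : GoodH C e (K + 1) H h := by
      by_contra hng
      refine hcon ⟨h, ?_, hbh.symm⟩
      rw [hEd, mem_filter, mem_Icc]
      exact ⟨⟨hh1, by omega⟩, ⟨t, hhd⟩, hng⟩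
    have key : ∀ y : ℕ, y ≤ K * H → |(lcount b y : ℝ) - C / 2 * (y / l)| ≤ e * (H / l) := by
      intro y hy
      have h1 := hgood (y + h) (by
        rw [add_mul, one_mul]
        omega)
      rw [lcount_eq, ← hbh, ← hl] at h1
      have h2 : max (((y + h : ℕ) : ℝ) - h) 0 = y := by
        push_cast
        rw [add_sub_cancel_right]
        exact max_eq_left (Nat.cast_nonneg _)
      rw [h2] at h1
      exact h1
    refine ⟨fun y hy => ?_, fun y hy hyH => ?_⟩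
    · rw [← hl]
      refine (key y hy).trans ?_
      apply mul_le_mul_of_nonneg_right _ hHl.le
      linarith
    · have h1 := hH₃ H (by omega) y hy
      rw [← hl] at h1
      have h3 := key y hy
      have hyr : (H : ℝ) ≤ K * y := by exact_mod_cast hyH
      obtain ⟨t, htd⟩ : ∃ t, t = (y : ℝ) / l := ⟨_, rfl⟩
      rw [← htd] at h1 h3
      have ht0 : 0 ≤ t := by rw [htd]; positivity
      have h4 : (H : ℝ) / l ≤ K * t := by
        rw [htd, mul_div_assoc']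
        gcongr
      have h5 : e * ((H : ℝ) / l) ≤ κ / 8 * t := by
        calc e * ((H : ℝ) / l) ≤ e * (K * t) := by gcongr
          _ = (e * (8 * K)) / 8 * t := by ring
          _ ≤ κ / 8 * t := by gcongr
      have h8 := abs_le.1 h1
      have h10 := abs_le.1 h3
      have hκt : 0 ≤ κ * t := by positivity
      have h13 : (1.77 + κ) * t ≤ C / 2 * t := mul_le_mul_of_nonneg_right hκa ht0
      have h14 : (C / 2 + κ) * t ≤ 1.78 * t := mul_le_mul_of_nonneg_right hκb ht0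
      constructor
      · nlinarith [h10.1, h8.2]
      · nlinarith [h10.2, h8.1]
  have hcard : (((Icc 1 H).filter (fun b : ℕ => b ≡ 3 [MOD 2 * V] ∧ ¬ GoodB C ε K H b)).card : ℝ) ≤ #E + 1 := by
    have h1 := (card_le_card hsub).trans ((card_insert_le _ _).trans (Nat.add_le_add_right card_image_le 1))
    exact_mod_cast h1
  refine hcard.trans ?_
  push_cast
  have h1 : (1 : ℝ) ≤ ε / 4 * (H / (2 * V)) := by
    have h2 : 4 * (2 * V : ℝ) / ε ≤ H := hH₄.trans (by exact_mod_cast (by omega : H₄ ≤ H))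
    rw [div_le_iff₀ hε] at h2
    rw [mul_div_assoc', le_div_iff₀ (by positivity)]
    linarith
  have h3 : e * ((H : ℝ) / V) ≤ ε / 2 * (H / (2 * V)) := by
    have h4 : e * ((H : ℝ) / V) ≤ ε / 4 * (H / V) := mul_le_mul_of_nonneg_right he1 (by positivity)
    have h5 : ε / 2 * ((H : ℝ) / (2 * V)) = ε / 4 * (H / V) := by
      field_simp
      ring
    linarith
  have h6 : 0 ≤ ε / 4 * ((H : ℝ) / (2 * V)) := by positivity
  linarith

end Pool.Agent.T9h60.BH
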